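import Pool.Agent.helper61.CSW.W.SpecW

/-! # Project ew:, row DLS (copy of helper20/XP/DLB.lean). -/

set_option autoImplicit false

open Complex Metric Set Filter Topology MeasureTheory
open YPPS (fd fdd pre TT CV IsCyc rho Exact)
open MPS (BB)
open Pool.Agent.helper98.ILF (juliaSet fatouSet)

noncomputable section

open CSS (SE SV JJ)

namespace YW

theorem DLS_diff (f : SE) (m : ℕ) : Differentiable ℂ (it f m) := by
  unfold it
  have h : Differentiable ℂ (fun w : ℂ => f.eval w) := f.differentiable
  exact h.iterate m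

theorem DLS_add (f : SE) (s t : ℕ) (z : ℂ) :
    deriv (it f (s + t)) z = deriv (it f s) (it f t z) * deriv (it f t) z := by
  have h : it f (s + t) = it f s ∘ it f t := by
    unfold it
    exact Function.iterate_add _ s t
  rw [h]
  exact deriv_comp z ((DLS_diff f s) (it f t z)) ((DLS_diff f t) z)

theorem DLS : DLS_stmt := by
  intro f k z hR
  obtain ⟨⟨hk, hmin⟩, hlt⟩ := hR
  have hper : it f k z = z := by
    have h := Function.isPeriodicPt_minimalPeriod (fun w : ℂ => f.eval w) z
    rw [hmin] at h
    exact h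
  have hmlt : mlt f k z = deriv (it f k) z := rfl
  have hperl : ∀ l : ℕ, it f (l * k) z = z := by
    intro l
    induction l with
    | zero => simp [it]
    | succ l ih =>
      have h : it f ((l + 1) * k) z = it f (l * k) (it f k z) := by
        unfold it
        rw [← Function.iterate_add_apply]
        congr 2
        ring
      rw [h, hper, ih]
  have hpow : ∀ l : ℕ, deriv (it f (l * k)) z = (mlt f k z) ^ l := by
    intro l
    induction l with
    | zero =>
      have : it f (0 * k) = id := by
        unfold it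
        rw [Nat.zero_mul]
        rfl
      rw [this, deriv_id, pow_zero]
    | succ l ih =>
      have h : (l + 1) * k = l * k + k := by ring
      rw [h, DLS_add, hper, ih, pow_succ, hmlt]
  have hdec : ∀ m : ℕ, ‖deriv (it f m) z‖ = ‖deriv (it f (m % k)) z‖ * ‖mlt f k z‖ ^ (m / k) := by
    intro m
    have h : m = m % k + (m / k) * k := by
      rw [mul_comm]; exact (Nat.mod_add_div m k).symm
    conv_lhs => rw [h]
    rw [DLS_add, hperl, hpow, norm_mul, norm_pow]
  have hpos : ∀ s < k, 0 < ‖deriv (it f s) z‖ := by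
    intro s hs
    rw [norm_pos_iff]
    intro h0
    have h : k = (k - s) + s := by omega
    have h1 : mlt f k z = 0 := by
      rw [hmlt]
      conv_lhs => rw [h]
      rw [DLS_add, h0, mul_zero]
    rw [h1, norm_zero] at hlt
    linarith
  obtain ⟨s₀, hs₀, hmins⟩ := Finset.exists_min_image (Finset.range k)
    (fun s => ‖deriv (it f s) z‖) ⟨0, Finset.mem_range.mpr hk⟩
  have hκ : 0 < ‖deriv (it f s₀) z‖ := hpos s₀ (Finset.mem_range.mp hs₀)
  have hlow : ∀ m : ℕ, ‖deriv (it f s₀) z‖ * ‖mlt f k z‖ ^ (m / k) ≤ ‖deriv (it f m) z‖ := by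
    intro m
    rw [hdec m]
    exact mul_le_mul_of_nonneg_right (hmins _ (Finset.mem_range.mpr (Nat.mod_lt m hk)))
      (by positivity)
  refine ⟨⟨_, hκ, fun m => ?_⟩, ?_⟩
  · refine le_trans ?_ (hlow m)
    exact le_mul_of_one_le_right hκ.le (one_le_pow₀ hlt.le)
  · refine tendsto_atTop_mono hlow ?_
    apply Tendsto.const_mul_atTop hκ
    exact (tendsto_pow_atTop_atTop_of_one_lt hlt).comp (Nat.tendsto_div_const_atTop hk.ne')

end YW
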