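import Pool.Agent.helper61.CSW.W.SpecW

/-! ew: IVR: sizes of discs near a fixed repelling periodic point (copy of XPP.INV). -/

set_option autoImplicit false

open Complex Metric Set Filter Topology MeasureTheory
open YPPS (fd fdd pre TT CV IsCyc rho Exact)
open MPS (BB)

noncomputable section

open CSS (SE)

namespace YW

lemma IVR_diff (f : SE) (m : ℕ) : Differentiable ℂ (it f m) :=
  Differentiable.iterate (CSS.SE.differentiable f) m

lemma IVR_add (f : SE) (a b : ℕ) (z : ℂ) : it f (a + b) z = it f a (it f b z) := by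
  unfold it
  exact Function.iterate_add_apply _ a b z

lemma IVR_chain (f : SE) (a b : ℕ) (z : ℂ) :
    deriv (it f (a + b)) z = deriv (it f a) (it f b z) * deriv (it f b) z := by
  have h : it f (a + b) = it f a ∘ it f b := by
    funext w
    exact IVR_add f a b w
  rw [h]
  exact deriv_comp z ((IVR_diff f a) _) ((IVR_diff f b) z)

lemma IVR_period {f : SE} {k : ℕ} {p : ℂ} (hp : Rep f k p) : it f k p = p := by
  have h := Function.iterate_minimalPeriod (f := fun w : ℂ => f.eval w) (x := p)
  rw [hp.1.2] at h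
  exact h

lemma IVR_ne (f : SE) (k : ℕ) (p : ℂ) (hp : Rep f k p) (l : ℕ) :
    deriv (it f (k * l)) p ≠ 0 ∧ it f (k * l) p = p := by
  induction l with
  | zero =>
    constructor
    · have h : it f (k * 0) = id := by
        unfold it
        rw [Nat.mul_zero]
        rfl
      rw [h, deriv_id]
      exact one_ne_zero
    · unfold it
      rw [Nat.mul_zero]
      rfl
  | succ l ih =>
    have h1 : it f k p = p := IVR_period hp
    have h2 : deriv (it f k) p ≠ 0 := by
      have h3 := hp.2
      intro h4
      unfold mlt at h3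
      unfold it at h4
      rw [h4, norm_zero] at h3
      linarith
    have h5 : k * (l + 1) = k * l + k := by ring
    constructor
    · rw [h5, IVR_chain, h1]
      exact mul_ne_zero ih.1 h2
    · rw [h5, IVR_add, h1]
      exact ih.2

lemma IVR_rep (f : SE) (k : ℕ) (p : ℂ) (hp : Rep f k p) (m : ℕ) : Rep f k (it f m p) := by
  have hk : 0 < k := hp.1.1
  have h1 : it f k p = p := IVR_period hp
  have hper : p ∈ Function.periodicPts (fun w : ℂ => f.eval w) :=
    Function.mk_mem_periodicPts hk h1
  refine ⟨⟨hk, ?_⟩, ?_⟩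
  · have h2 := Function.minimalPeriod_apply_iterate hper m
    unfold it
    rw [h2]
    exact hp.1.2
  · have h3 : deriv (it f m) p ≠ 0 := by
      have h4 := (IVR_ne f k p hp m).1
      have h5 : m ≤ k * m := Nat.le_mul_of_pos_left m hk
      have h6 : k * m = (k * m - m) + m := (Nat.sub_add_cancel h5).symm
      rw [h6, IVR_chain] at h4
      exact right_ne_zero_of_mul h4
    have h7 : deriv (it f k) (it f m p) * deriv (it f m) p = deriv (it f m) p * deriv (it f k) p := by
      rw [← IVR_chain, Nat.add_comm, IVR_chain, h1]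
    have h8 : deriv (it f k) (it f m p) = deriv (it f k) p := by
      apply mul_right_cancel₀ h3
      rw [h7, mul_comm]
    have h9 : mlt f k (it f m p) = mlt f k p := h8
    rw [h9]
    exact hp.2

theorem IVR (hLNS : LNS_stmt) (hSMS : SMS_stmt) : IVR_stmt := by
  intro f k' b' A hb' hA
  obtain ⟨d, hd, r, hr, C, hC, hlin⟩ := hLNS f k' b' hb'
  have hCA : 0 < C * A := mul_pos hC hA
  have hs : 0 < min r (1 / (C * A)) := lt_min hr (by positivity)
  obtain ⟨t₀, ht₀, hsma⟩ := (hSMS f (min r (1 / (C * A))) (‖b'‖ + 2 * d) hs).1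
  refine ⟨min (d / A) (t₀ / 4), lt_min (by positivity) (by positivity), ?_⟩
  intro K k p t hp hne hK hKp ht htt hdisc
  by_contra hcon
  have hcon' : ‖p - b'‖ < A * t := lt_of_not_ge hcon
  have htd : t < d / A := lt_of_lt_of_le htt (min_le_left _ _)
  have htt0 : t < t₀ / 4 := lt_of_lt_of_le htt (min_le_right _ _)
  have hpd : ‖p - b'‖ < d := by
    rw [lt_div_iff₀ hA] at htd
    linarith
  obtain ⟨N, H, h1, hnear, h2, h3⟩ := hlin p hne hpd
  have hNK : N * k' ≤ K := h3 K hK hKp
  have hnb : ‖it f (N * k') p‖ ≤ ‖b'‖ + 2 * d := by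
    have h0 : it f (N * k') p = b' + (it f (N * k') p - b') := by ring
    rw [h0]
    exact (norm_add_le _ _).trans (by linarith)
  have hfin := hsma (K - N * k') k (it f (N * k') p) p (4 * t) (IVR_rep f k p hp _) hnb (by
    intro z hz
    have hzr : ‖z - it f (N * k') p‖ < r := lt_of_lt_of_le hz (min_le_left _ _)
    have hzs : ‖z - it f (N * k') p‖ < 1 / (C * A) := lt_of_lt_of_le hz (min_le_right _ _)
    obtain ⟨h4, h5⟩ := h2 z hzr
    have h6 : ‖H z - p‖ < t := by
      refine lt_of_le_of_lt h5 ?_
      have h7 : C * ‖p - b'‖ * ‖z - it f (N * k') p‖ ≤ C * (A * t) * ‖z - it f (N * k') p‖ :=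
        mul_le_mul_of_nonneg_right (mul_le_mul_of_nonneg_left hcon'.le hC.le) (norm_nonneg _)
      refine lt_of_le_of_lt h7 ?_
      rw [lt_div_iff₀ hCA] at hzs
      have h8 : C * (A * t) * ‖z - it f (N * k') p‖ = t * (‖z - it f (N * k') p‖ * (C * A)) := by ring
      rw [h8]
      calc t * (‖z - it f (N * k') p‖ * (C * A)) < t * 1 := mul_lt_mul_of_pos_left hzs ht
        _ = t := mul_one t
    have h9 := hdisc (H z - p) h6
    have h10 : p + (H z - p) = H z := by ring
    rw [h10] at h9
    have h11 : it f K (H z) = it f (K - N * k') z := by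
      have h12 : K = (K - N * k') + N * k' := (Nat.sub_add_cancel hNK).symm
      conv_lhs => rw [h12]
      rw [IVR_add, h4]
    rw [← h11]
    exact h9)
  linarith

end YW
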