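import Pool.Agent.helper61.CSW.W.SpecW

/-! csw:LIM: the limit of the difference of the integrals (helper61) -/

set_option autoImplicit false

open Complex Metric Set Filter Topology MeasureTheory
open YPPS (fd fdd pre TT CV IsCyc rho Exact)
open MPS (BB)
open Pool.Agent.helper98.ILF (juliaSet fatouSet)

noncomputable section

open CSS (SE SV JJ)

namespace YW

section
variable {k : ℕ} [NeZero k]

/-- separation. -/
theorem LIM_sep {f : SE} {X : NP f} {b g : ZMod k → ℂ} {c₁ c₂ : ℂ} (h : CQ f X b g c₁ c₂) :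
    ∃ η > (0 : ℝ), (∀ i j, i ≠ j → 2 * η ≤ ‖b i - b j‖) ∧ (∀ i, 2 * η ≤ ‖b i - X.p₁‖) ∧ ∀ i, 2 * η ≤ ‖b i - X.p₂‖ := by
  have key : ∀ a : ℝ, 0 < a → ∀ᶠ η : ℝ in 𝓝[>] 0, 2 * η ≤ a := by
    intro a ha
    filter_upwards [Ioo_mem_nhdsGT (show (0 : ℝ) < a / 2 by linarith)] with η hη
    linarith [hη.2]
  have h1 : ∀ᶠ η : ℝ in 𝓝[>] 0, ∀ i j, i ≠ j → 2 * η ≤ ‖b i - b j‖ := by
    rw [eventually_all]
    intro i
    rw [eventually_all]
    intro j
    by_cases hij : i = j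
    · exact Eventually.of_forall fun η h => absurd hij h
    · filter_upwards [key _ (norm_pos_iff.2 (sub_ne_zero.2 (fun e => hij (h.cyc.inj e))))] with η hη _ using hη
  have h2 : ∀ᶠ η : ℝ in 𝓝[>] 0, ∀ i, 2 * η ≤ ‖b i - X.p₁‖ := by
    rw [eventually_all]
    intro i
    exact key _ (norm_pos_iff.2 (sub_ne_zero.2 (h.np1 i)))
  have h3 : ∀ᶠ η : ℝ in 𝓝[>] 0, ∀ i, 2 * η ≤ ‖b i - X.p₂‖ := by
    rw [eventually_all]
    intro i
    exact key _ (norm_pos_iff.2 (sub_ne_zero.2 (h.np2 i)))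
  obtain ⟨η, h4, h5, h6, h7⟩ := (h1.and (h2.and (h3.and self_mem_nhdsWithin))).exists
  exact ⟨η, h7, h4, h5, h6⟩

/-- the local expansion. -/
theorem LIM_loc {f : SE} {X : NP f} {b g : ZMod k → ℂ} {c₁ c₂ : ℂ} {η : ℝ} (hη : 0 < η)
    (h1 : ∀ i j, i ≠ j → 2 * η ≤ ‖b i - b j‖) (h2 : ∀ i, 2 * η ≤ ‖b i - X.p₁‖) (h3 : ∀ i, 2 * η ≤ ‖b i - X.p₂‖) (i : ZMod k) :
    ∃ M : ℝ, 0 ≤ M ∧ ∀ z : ℂ, z ≠ b i → ‖z - b i‖ < η → ‖qc X b g c₁ c₂ z - 1 / (z - b i) ^ 2‖ ≤ M / ‖z - b i‖ := by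
  classical
  set C : ℝ := (∑ j, (1 / η ^ 2 + ‖g j‖ / η)) + (‖c₁‖ / η + ‖c₂‖ / η) with hC
  have hC0 : 0 ≤ C := by
    rw [hC]
    have : 0 ≤ ∑ j, (1 / η ^ 2 + ‖g j‖ / η) := Finset.sum_nonneg fun j _ => by positivity
    positivity
  refine ⟨‖g i‖ + C * η, by positivity, ?_⟩
  intro z hz hzη
  have hpos : 0 < ‖z - b i‖ := norm_pos_iff.2 (sub_ne_zero.2 hz)
  have far : ∀ a : ℂ, 2 * η ≤ ‖b i - a‖ → η ≤ ‖z - a‖ := by
    intro a ha
    have : ‖b i - a‖ ≤ ‖z - a‖ + ‖z - b i‖ := by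
      calc ‖b i - a‖ = ‖(z - a) - (z - b i)‖ := by ring_nf
        _ ≤ _ := norm_sub_le _ _
    linarith
  have e1 : qc X b g c₁ c₂ z - 1 / (z - b i) ^ 2 = g i / (z - b i) +
      ((∑ j ∈ Finset.univ.erase i, (1 / (z - b j) ^ 2 + g j / (z - b j))) + (c₁ / (z - X.p₁) + c₂ / (z - X.p₂))) := by
    unfold qc BB rr
    rw [← Finset.add_sum_erase Finset.univ _ (Finset.mem_univ i)]
    ring
  have e2 : ‖∑ j ∈ Finset.univ.erase i, (1 / (z - b j) ^ 2 + g j / (z - b j))‖ ≤ ∑ j, (1 / η ^ 2 + ‖g j‖ / η) := by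
    refine (norm_sum_le _ _).trans ?_
    refine (Finset.sum_le_sum (g := fun j => 1 / η ^ 2 + ‖g j‖ / η) fun j hj => ?_).trans
      (Finset.sum_le_sum_of_subset_of_nonneg (Finset.erase_subset _ _) fun j _ _ => by positivity)
    have h4 := far (b j) (h1 i j (Finset.ne_of_mem_erase hj).symm)
    refine (norm_add_le _ _).trans ?_
    rw [norm_div, norm_div, norm_pow, norm_one]
    gcongr
  have e3 : ‖c₁ / (z - X.p₁) + c₂ / (z - X.p₂)‖ ≤ ‖c₁‖ / η + ‖c₂‖ / η := by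
    refine (norm_add_le _ _).trans ?_
    rw [norm_div, norm_div]
    have h5 := far _ (h2 i)
    have h6 := far _ (h3 i)
    gcongr
  rw [e1]
  calc _ ≤ ‖g i / (z - b i)‖ + ‖(∑ j ∈ Finset.univ.erase i, (1 / (z - b j) ^ 2 + g j / (z - b j))) + (c₁ / (z - X.p₁) + c₂ / (z - X.p₂))‖ := norm_add_le _ _
    _ ≤ ‖g i‖ / ‖z - b i‖ + C := by
        rw [norm_div]
        have := norm_add_le (∑ j ∈ Finset.univ.erase i, (1 / (z - b j) ^ 2 + g j / (z - b j))) (c₁ / (z - X.p₁) + c₂ / (z - X.p₂))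
        linarith
    _ ≤ ‖g i‖ / ‖z - b i‖ + C * η / ‖z - b i‖ := by
        have : C ≤ C * η / ‖z - b i‖ := by
          rw [le_div_iff₀ hpos]
          exact mul_le_mul_of_nonneg_left hzη.le hC0
        linarith
    _ = (‖g i‖ + C * η) / ‖z - b i‖ := by ring

/-- decomposition of an integral. -/
theorem LIM_dec (b : ZMod k → ℂ) (r : ZMod k → ℝ) (hd : ∀ i j, i ≠ j → Disjoint (ball (b i) (r i)) (ball (b j) (r j))) (h : ℂ → ℝ) (S : Set ℂ)
    (hS : MeasurableSet S) (hi : IntegrableOn h S) :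
    ∫ z in S, h z = (∑ i, ∫ z in S ∩ ball (b i) (r i), h z) + ∫ z in S \ ⋃ i, ball (b i) (r i), h z := by
  have hU : MeasurableSet (⋃ i, ball (b i) (r i)) := MeasurableSet.iUnion fun i => measurableSet_ball
  rw [← integral_inter_add_sdiff hU hi, inter_iUnion, integral_iUnion_fintype (fun i => hS.inter measurableSet_ball)]
  · intro i j hij
    exact (hd i j hij).mono inter_subset_right inter_subset_right
  · intro i
    exact hi.mono_set inter_subset_left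

/-- the difference of two integrals. -/
theorem LIM_diff (h : ℂ → ℂ) (A B : Set ℂ) (hA : MeasurableSet A) (hB : MeasurableSet B) (hiA : IntegrableOn h A) (hiB : IntegrableOn h B) :
    ‖(∫ z in B, h z) - ∫ z in A, h z‖ ≤ ∫ z in (B \ A) ∪ (A \ B), ‖h z‖ := by
  have e1 := integral_inter_add_sdiff hA hiB
  have e2 := integral_inter_add_sdiff hB hiA
  rw [inter_comm A B] at e2
  have e3 : (∫ z in B, h z) - ∫ z in A, h z = (∫ z in B \ A, h z) - ∫ z in A \ B, h z := by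
    rw [← e1, ← e2]
    ring
  have hd : Disjoint (B \ A) (A \ B) := by
    rw [Set.disjoint_left]
    rintro x ⟨_, h1⟩ ⟨h2, _⟩
    exact h1 h2
  rw [e3, setIntegral_union hd (hA.diff hB) (IntegrableOn.mono_set hiB sdiff_subset).norm (IntegrableOn.mono_set hiA sdiff_subset).norm]
  refine (norm_sub_le _ _).trans (add_le_add (norm_integral_le_integral_norm _) (norm_integral_le_integral_norm _))

end

set_option maxHeartbeats 8000000 in
/-- all radii and thresholds. -/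
theorem LIM_main (hRNA : RNA_stmt) (hQIN : QIN_stmt) (hCRC : SPPS.CRC_stmt) (f : SE) (X : NP f) (k : ℕ) [NeZero k] (b g : ZMod k → ℂ) (c₁ c₂ : ℂ)
    (hQ : CQ f X b g c₁ c₂) (κ : ZMod k → ℝ) (hκ : ∀ i, 0 < κ i) (τ : ℝ) (hτ : 0 < τ) (ρ₀ : ℝ) (hρ₀ : 0 < ρ₀) :
    ∃ r : ZMod k → ℝ, (∀ i, 0 < r i ∧ r i ≤ ρ₀) ∧ (∀ i j, i ≠ j → Disjoint (ball (b i) (r i)) (ball (b j) (r j))) ∧ ∃ ε₀ > (0 : ℝ), ∀ ε : ℝ, 0 < ε → ε < ε₀ →
      (∀ z, z ∉ (⋃ i, ball (b i) (r i)) → z ∈ KE b κ ε) ∧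
      (∀ i, ∫ z in ((FKE f b κ ε \ KE b κ ε) ∪ (KE b κ ε \ FKE f b κ ε)) ∩ ball (b i) (r i), ‖qc X b g c₁ c₂ z‖ ≤ 2 * Real.pi * |Real.log (κ (i + 1) / (‖fd f (b i)‖ * κ i))| + τ / (2 * k)) ∧
      (∫ z in (KE b κ ε \ FKE f b κ ε) \ ⋃ i, ball (b i) (r i), ‖qc X b g c₁ c₂ z‖ ≤ τ / 2) ∧
      ∀ i, (∫ z in FKE f b κ ε ∩ ball (b i) (r i), ‖qc X b g c₁ c₂ z‖) - (∫ z in KE b κ ε ∩ ball (b i) (r i), ‖qc X b g c₁ c₂ z‖) ≤ 2 * Real.pi * Real.log (‖fd f (b i)‖ * κ i / κ (i + 1)) + τ / (2 * k) := by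
  classical
  obtain ⟨hI, hAD, hI2⟩ := hQIN f X k b g c₁ c₂ hQ
  obtain ⟨η, hη, h1, h2, h3⟩ := LIM_sep hQ
  have hk : (0 : ℝ) < k := Nat.cast_pos.2 (Nat.pos_of_ne_zero (NeZero.ne k))
  have hqm : Measurable (qc X b g c₁ c₂) := by
    show Measurable (fun z => (∑ i, (1 / (z - b i) ^ 2 + g i / (z - b i))) + (c₁ / (z - X.p₁) + c₂ / (z - X.p₂)))
    fun_prop
  have hfc : Continuous (fun w : ℂ => f.eval w) := f.dif.continuous
  -- the radii before RNA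
  have hr₀ : ∀ i, ∃ r₀ > (0 : ℝ), r₀ ≤ η ∧ r₀ ≤ ρ₀ ∧ ∀ z, ‖z - b i‖ < r₀ → ‖f.eval z - b (i + 1)‖ < η := by
    intro i
    have h4 := Metric.continuousAt_iff.1 (hfc.continuousAt (x := b i)) η hη
    obtain ⟨δ, hδ, h5⟩ := h4
    refine ⟨min δ (min η ρ₀), lt_min hδ (lt_min hη hρ₀), (min_le_right _ _).trans (min_le_left _ _), (min_le_right _ _).trans (min_le_right _ _), ?_⟩
    intro z hz
    have h6 := h5 (show dist z (b i) < δ by rw [dist_eq_norm]; exact hz.trans_le (min_le_left _ _))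
    rw [dist_eq_norm, hQ.cyc.step i] at h6
    exact h6
  choose r₀ hr0 hrη hrρ hrf using hr₀
  -- RNA
  have hR : ∀ i, ∃ r > (0 : ℝ), r ≤ r₀ i ∧ ∃ ε₀ > (0 : ℝ), ∀ ε : ℝ, 0 < ε → ε < ε₀ →
      (∫ z in {z : ℂ | ‖z - b i‖ < r ∧ ¬ (ε * κ i ≤ ‖z - b i‖ ↔ ε * κ (i + 1) ≤ ‖f.eval z - b (i + 1)‖)}, ‖qc X b g c₁ c₂ z‖) ≤ 2 * Real.pi * |Real.log (κ (i + 1) / (‖fd f (b i)‖ * κ i))| + τ / (2 * k) ∧
      (∫ z in {z : ℂ | ‖z - b i‖ < r ∧ ε * κ (i + 1) ≤ ‖f.eval z - b (i + 1)‖}, ‖qc X b g c₁ c₂ z‖) - (∫ z in {z : ℂ | ‖z - b i‖ < r ∧ ε * κ i ≤ ‖z - b i‖}, ‖qc X b g c₁ c₂ z‖) ≤ 2 * Real.pi * Real.log (‖fd f (b i)‖ * κ i / κ (i + 1)) + τ / (2 * k) := by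
    intro i
    obtain ⟨M, hM, hloc⟩ := LIM_loc (f := f) (X := X) (b := b) (g := g) (c₁ := c₁) (c₂ := c₂) hη h1 h2 h3 i
    obtain ⟨r, hr, hrle, ε₀, hε₀, h4⟩ := hRNA (fun w => f.eval w) (qc X b g c₁ c₂) (b i) (r₀ i) M (hr0 i) hM f.dif.differentiableOn (hQ.cyc.ne0 i) hqm
      (fun z hz hz2 => hloc z hz (hz2.trans_le (hrη i))) (κ i) (κ (i + 1)) (τ / (2 * k)) (hκ i) (hκ (i + 1)) (by positivity)
    refine ⟨r, hr, hrle, ε₀, hε₀, fun ε he he2 => ?_⟩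
    obtain ⟨h5, -, h6⟩ := h4 ε he he2
    simp only [hQ.cyc.step i] at h5 h6
    exact ⟨h5, h6⟩
  choose r hr hrle ε₁ hε₁ hmain using hR
  have hdis : ∀ i j, i ≠ j → Disjoint (ball (b i) (r i)) (ball (b j) (r j)) := by
    intro i j hij
    rw [Set.disjoint_left]
    intro z hz hz'
    rw [mem_ball, dist_eq_norm] at hz hz'
    have h4 := h1 i j hij
    have h5 : ‖b i - b j‖ ≤ ‖z - b i‖ + ‖z - b j‖ := by
      calc ‖b i - b j‖ = ‖(z - b j) - (z - b i)‖ := by ring_nf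
        _ ≤ ‖z - b j‖ + ‖z - b i‖ := norm_sub_le _ _
        _ = _ := add_comm _ _
    have h6 := hrle i
    have h7 := hrη i
    have h8 := hrle j
    have h9 := hrη j
    linarith
  refine ⟨r, fun i => ⟨hr i, (hrle i).trans (hrρ i)⟩, hdis, ?_⟩
  -- the threshold
  have hfinZ : Finite (ZMod k) := inferInstance
  have hev1 : ∀ᶠ ε : ℝ in 𝓝[>] 0, ∀ i, ε < ε₁ i ∧ ε * κ i < η ∧ ε * κ i < r i := by
    rw [eventually_all]
    intro i
    have h4 : Tendsto (fun ε : ℝ => ε * κ i) (𝓝[>] 0) (𝓝 0) := by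
      have : Tendsto (fun ε : ℝ => ε * κ i) (𝓝 0) (𝓝 (0 * κ i)) := (continuous_id.mul continuous_const).tendsto 0
      rw [zero_mul] at this
      exact this.mono_left nhdsWithin_le_nhds
    filter_upwards [Ioo_mem_nhdsGT (hε₁ i), h4.eventually (gt_mem_nhds hη), h4.eventually (gt_mem_nhds (hr i))] with ε h5 h6 h7
    exact ⟨h5.2, h6, h7⟩
  -- the far part
  set O : Set ℂ := (⋃ i, ball (b i) (r i))ᶜ with hO
  have hOm : MeasurableSet O := (MeasurableSet.iUnion fun i => measurableSet_ball).compl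
  obtain ⟨r', hr', hrr'⟩ : ∃ r' > (0 : ℝ), ∀ i, r' ≤ r i := by
    have : ∀ᶠ x : ℝ in 𝓝[>] 0, ∀ i, x ≤ r i := by
      rw [eventually_all]
      intro i
      filter_upwards [Ioo_mem_nhdsGT (hr i)] with x hx using hx.2.le
    obtain ⟨x, hx1, hx2⟩ := (this.and self_mem_nhdsWithin).exists
    exact ⟨x, hx2, hx1⟩
  have hOi : IntegrableOn (fun z => ‖qc X b g c₁ c₂ z‖) O := by
    refine (IntegrableOn.mono_set (hI r' hr') ?_).norm
    intro z hz i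
    rw [hO, mem_compl_iff, mem_iUnion, not_exists] at hz
    have := hz i
    rw [mem_ball, not_lt, dist_eq_norm] at this
    exact (hrr' i).trans this
  set D : ℝ → Set ℂ := fun ε => {z | z ∈ O ∧ ∃ i, ‖f.eval z - b i‖ < ε * κ i} with hD
  have hDm : ∀ ε, MeasurableSet (D ε) := by
    intro ε
    refine hOm.inter ?_
    have : {z : ℂ | ∃ i, ‖f.eval z - b i‖ < ε * κ i} = ⋃ i, {z : ℂ | ‖f.eval z - b i‖ < ε * κ i} := by
      ext z; simp
    show MeasurableSet {z : ℂ | ∃ i, ‖f.eval z - b i‖ < ε * κ i}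
    rw [this]
    exact MeasurableSet.iUnion fun i => (isOpen_lt (by fun_prop) continuous_const).measurableSet
  have hDmono : ∀ ε ε' : ℝ, ε ≤ ε' → D ε ⊆ D ε' := by
    rintro ε ε' hle z ⟨hz, i, hi⟩
    exact ⟨hz, i, hi.trans_le (mul_le_mul_of_nonneg_right hle (hκ i).le)⟩
  have hDlim : Tendsto (fun n : ℕ => ∫ z in D (1 / ((n : ℝ) + 1)), ‖qc X b g c₁ c₂ z‖) atTop (𝓝 0) := by
    have h4 := tendsto_setIntegral_of_antitone (μ := volume) (f := fun z : ℂ => ‖qc X b g c₁ c₂ z‖) (s := fun n : ℕ => D (1 / ((n : ℝ) + 1)))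
      (fun n => hDm _) (by
        intro n m hnm
        refine hDmono _ _ ?_
        gcongr) ⟨0, hOi.mono_set fun z hz => hz.1⟩
    have h5 : (⋂ n : ℕ, D (1 / ((n : ℝ) + 1))) ⊆ {y : ℂ | f.eval y ∈ range b} := by
      intro z hz
      rw [mem_iInter] at hz
      by_contra hne
      have h6 : ∀ᶠ n : ℕ in atTop, ∀ i, 1 / ((n : ℝ) + 1) * κ i < ‖f.eval z - b i‖ := by
        rw [eventually_all]
        intro i
        have h7 : 0 < ‖f.eval z - b i‖ := by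
          rw [norm_pos_iff, sub_ne_zero]
          intro e
          exact hne ⟨i, e.symm⟩
        have h8 : Tendsto (fun n : ℕ => 1 / ((n : ℝ) + 1) * κ i) atTop (𝓝 (0 * κ i)) :=
          (tendsto_one_div_add_atTop_nhds_zero_nat (𝕜 := ℝ)).mul_const _
        rw [zero_mul] at h8
        exact h8.eventually (gt_mem_nhds h7)
      obtain ⟨n, hn⟩ := h6.exists
      obtain ⟨-, i, hi⟩ := hz n
      exact absurd hi (not_lt.2 (hn i).le)
    have h6 : volume (⋂ n : ℕ, D (1 / ((n : ℝ) + 1))) = 0 :=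
      measure_mono_null h5 (((hCRC f).2.1 (range b) (finite_range b).countable).measure_zero volume)
    rw [Measure.restrict_eq_zero.2 h6, integral_zero_measure] at h4
    exact h4
  obtain ⟨N, hN⟩ := (hDlim.eventually (ge_mem_nhds (show (0 : ℝ) < τ / 2 by linarith))).exists
  have hev2 : ∀ᶠ ε : ℝ in 𝓝[>] 0, ε < 1 / ((N : ℝ) + 1) := by
    have : (0 : ℝ) < 1 / ((N : ℝ) + 1) := by positivity
    filter_upwards [Ioo_mem_nhdsGT this] with ε h using h.2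
  obtain ⟨ε₀, hε₀, hev⟩ : ∃ ε₀ > (0 : ℝ), ∀ ε : ℝ, 0 < ε → ε < ε₀ → (∀ i, ε < ε₁ i ∧ ε * κ i < η ∧ ε * κ i < r i) ∧ ε < 1 / ((N : ℝ) + 1) := by
    have h4 := hev1.and hev2
    rw [eventually_nhdsWithin_iff, Metric.eventually_nhds_iff] at h4
    obtain ⟨ε₀, hε₀, h5⟩ := h4
    refine ⟨ε₀, hε₀, fun ε he he2 => h5 ?_ he⟩
    rw [Real.dist_eq, sub_zero, abs_of_pos he]
    exact he2
  refine ⟨ε₀, hε₀, fun ε he he2 => ?_⟩
  obtain ⟨hev1, hevN⟩ := hev ε he he2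
  -- the sets in the balls
  have hKball : ∀ i z, z ∈ ball (b i) (r i) → (z ∈ KE b κ ε ↔ ε * κ i ≤ ‖z - b i‖) := by
    intro i z hz
    rw [mem_ball, dist_eq_norm] at hz
    constructor
    · intro h; exact h i
    · intro h j
      by_cases hij : i = j
      · rw [← hij]; exact h
      · have h4 := h1 i j hij
        have h5 : ‖b i - b j‖ ≤ ‖z - b j‖ + ‖z - b i‖ := by
          calc ‖b i - b j‖ = ‖(z - b j) - (z - b i)‖ := by ring_nf
            _ ≤ _ := norm_sub_le _ _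
        have h6 := hrle i
        have h7 := hrη i
        have h8 := (hev1 j).2.1
        linarith
  have hFball : ∀ i z, z ∈ ball (b i) (r i) → (z ∈ FKE f b κ ε ↔ ε * κ (i + 1) ≤ ‖f.eval z - b (i + 1)‖) := by
    intro i z hz
    rw [mem_ball, dist_eq_norm] at hz
    have h4 := hrf i z (hz.trans_le (hrle i))
    constructor
    · intro h; exact h (i + 1)
    · intro h j
      by_cases hij : i + 1 = j
      · rw [← hij]; exact h
      · have h5 := h1 (i + 1) j hij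
        have h6 : ‖b (i + 1) - b j‖ ≤ ‖f.eval z - b j‖ + ‖f.eval z - b (i + 1)‖ := by
          calc ‖b (i + 1) - b j‖ = ‖(f.eval z - b j) - (f.eval z - b (i + 1))‖ := by ring_nf
            _ ≤ _ := norm_sub_le _ _
        have h7 := (hev1 j).2.1
        linarith
  have hfarK : ∀ z, z ∉ (⋃ i, ball (b i) (r i)) → z ∈ KE b κ ε := by
    intro z hz i
    rw [mem_iUnion, not_exists] at hz
    have := hz i
    rw [mem_ball, not_lt, dist_eq_norm] at this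
    exact (hev1 i).2.2.le.trans this
  refine ⟨hfarK, ?_, ?_, ?_⟩
  · intro i
    have h4 : ((FKE f b κ ε \ KE b κ ε) ∪ (KE b κ ε \ FKE f b κ ε)) ∩ ball (b i) (r i) =
        {z : ℂ | ‖z - b i‖ < r i ∧ ¬ (ε * κ i ≤ ‖z - b i‖ ↔ ε * κ (i + 1) ≤ ‖f.eval z - b (i + 1)‖)} := by
      ext z
      constructor
      · rintro ⟨hz, hzb⟩
        refine ⟨by rw [mem_ball, dist_eq_norm] at hzb; exact hzb, ?_⟩
        rw [← hKball i z hzb, ← hFball i z hzb]
        rintro hiff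
        rcases hz with ⟨ha, hb⟩ | ⟨ha, hb⟩
        · exact hb (hiff.2 ha)
        · exact hb (hiff.1 ha)
      · rintro ⟨hz, hn⟩
        have hzb : z ∈ ball (b i) (r i) := by rw [mem_ball, dist_eq_norm]; exact hz
        rw [← hKball i z hzb, ← hFball i z hzb] at hn
        refine ⟨?_, hzb⟩
        by_cases hk2 : z ∈ KE b κ ε
        · right
          refine ⟨hk2, fun hf2 => hn ⟨fun _ => hf2, fun _ => hk2⟩⟩
        · left
          refine ⟨?_, hk2⟩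
          by_contra hf2
          exact hn ⟨fun h => absurd h hk2, fun h => absurd h hf2⟩
    rw [h4]
    exact (hmain i ε he (hev1 i).1).1
  · have h4 : (KE b κ ε \ FKE f b κ ε) \ (⋃ i, ball (b i) (r i)) ⊆ D (1 / ((N : ℝ) + 1)) := by
      rintro z ⟨⟨-, hz1⟩, hz2⟩
      refine hDmono ε _ hevN.le ⟨hz2, ?_⟩
      by_contra hno
      push Not at hno
      exact hz1 hno
    refine (setIntegral_mono_set (hOi.mono_set fun z hz => hz.1) (Eventually.of_forall fun z => norm_nonneg _) (LE.le.eventuallyLE h4)).trans hN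
  · intro i
    have h4 : FKE f b κ ε ∩ ball (b i) (r i) = {z : ℂ | ‖z - b i‖ < r i ∧ ε * κ (i + 1) ≤ ‖f.eval z - b (i + 1)‖} := by
      ext z
      constructor
      · rintro ⟨hz, hzb⟩
        refine ⟨by rw [mem_ball, dist_eq_norm] at hzb; exact hzb, (hFball i z hzb).1 hz⟩
      · rintro ⟨hz, hn⟩
        have hzb : z ∈ ball (b i) (r i) := by rw [mem_ball, dist_eq_norm]; exact hz
        exact ⟨(hFball i z hzb).2 hn, hzb⟩
    have h5 : KE b κ ε ∩ ball (b i) (r i) = {z : ℂ | ‖z - b i‖ < r i ∧ ε * κ i ≤ ‖z - b i‖} := by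
      ext z
      constructor
      · rintro ⟨hz, hzb⟩
        refine ⟨by rw [mem_ball, dist_eq_norm] at hzb; exact hzb, (hKball i z hzb).1 hz⟩
      · rintro ⟨hz, hn⟩
        have hzb : z ∈ ball (b i) (r i) := by rw [mem_ball, dist_eq_norm]; exact hz
        exact ⟨(hKball i z hzb).2 hn, hzb⟩
    rw [h4, h5]
    exact (hmain i ε he (hev1 i).1).2

theorem LIM (hRNA : RNA_stmt) (hQIN : QIN_stmt) (hCRC : SPPS.CRC_stmt) : LIM_stmt := by
  classical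
  intro f X k _ b g c₁ c₂ hQ κ hκ τ hτ
  obtain ⟨hI, hAD, hI2⟩ := hQIN f X k b g c₁ c₂ hQ
  have hk : (0 : ℝ) < k := Nat.cast_pos.2 (Nat.pos_of_ne_zero (NeZero.ne k))
  have hcard : ((Finset.univ : Finset (ZMod k)).card : ℝ) = k := by
    rw [Finset.card_univ, ZMod.card]
  have hsumk : ∑ _i : ZMod k, τ / (2 * (k : ℝ)) = τ / 2 := by
    rw [Finset.sum_const, nsmul_eq_mul, hcard]
    field_simp
  -- the estimate with an integrand bounded by `‖q‖`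
  have hgen : ∀ φ : ℂ → ℂ, Measurable φ → (∀ z, ‖φ z‖ ≤ 1) → ∀ ε : ℝ, 0 < ε →
      ‖(∫ z in FKE f b κ ε, φ z * qc X b g c₁ c₂ z) - ∫ z in KE b κ ε, φ z * qc X b g c₁ c₂ z‖ ≤
        ∫ z in (FKE f b κ ε \ KE b κ ε) ∪ (KE b κ ε \ FKE f b κ ε), ‖φ z * qc X b g c₁ c₂ z‖ ∧
      IntegrableOn (fun z => φ z * qc X b g c₁ c₂ z) ((FKE f b κ ε \ KE b κ ε) ∪ (KE b κ ε \ FKE f b κ ε)) ∧
      IntegrableOn (fun z => qc X b g c₁ c₂ z) ((FKE f b κ ε \ KE b κ ε) ∪ (KE b κ ε \ FKE f b κ ε)) := by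
    intro φ hφ hφ1 ε he
    obtain ⟨hm1, hm2, hi1, hi2⟩ := hI2 κ hκ ε he
    have hb : ∀ S : Set ℂ, IntegrableOn (qc X b g c₁ c₂) S → IntegrableOn (fun z => φ z * qc X b g c₁ c₂ z) S := by
      intro S hS
      exact Integrable.bdd_mul (c := 1) hS hφ.aestronglyMeasurable (Eventually.of_forall hφ1)
    refine ⟨LIM_diff _ _ _ hm1 hm2 (hb _ hi1) (hb _ hi2), ?_, ?_⟩
    · exact ((hb _ hi2).mono_set sdiff_subset).union ((hb _ hi1).mono_set sdiff_subset)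
    · exact (hi2.mono_set sdiff_subset).union (hi1.mono_set sdiff_subset)
  refine ⟨?_, ?_⟩
  · intro φ hφ hφ1
    -- a common radius
    obtain ⟨ρ₀, hρ₀, hρφ⟩ : ∃ ρ₀ > (0 : ℝ), (∀ i, ∃ r > (0 : ℝ), ∀ z ∈ ball (b i) r, φ z = 0) → ∀ i, ∀ z ∈ ball (b i) ρ₀, φ z = 0 := by
      by_cases hφ0 : ∀ i, ∃ r > (0 : ℝ), ∀ z ∈ ball (b i) r, φ z = 0
      · choose s hs hs0 using hφ0
        have : ∀ᶠ x : ℝ in 𝓝[>] 0, ∀ i, x < s i := by
          rw [eventually_all]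
          intro i
          filter_upwards [Ioo_mem_nhdsGT (hs i)] with x hx using hx.2
        obtain ⟨x, hx1, hx2⟩ := (this.and self_mem_nhdsWithin).exists
        exact ⟨x, hx2, fun _ i z hz => hs0 i z (ball_subset_ball (hx1 i).le hz)⟩
      · exact ⟨1, one_pos, fun h => absurd h hφ0⟩
    obtain ⟨r, hr, hdis, ε₀, hε₀, hmain⟩ := LIM_main hRNA hQIN hCRC f X k b g c₁ c₂ hQ κ hκ τ hτ ρ₀ hρ₀
    refine ⟨ε₀, hε₀, fun ε he he2 => ?_⟩
    obtain ⟨hfarK, hnear, hfar, -⟩ := hmain ε he he2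
    obtain ⟨hm1, hm2, hi1, hi2⟩ := hI2 κ hκ ε he
    obtain ⟨hle, hint, hintq⟩ := hgen φ hφ hφ1 ε he
    have hSm : MeasurableSet ((FKE f b κ ε \ KE b κ ε) ∪ (KE b κ ε \ FKE f b κ ε)) := (hm2.diff hm1).union (hm1.diff hm2)
    have hdec := LIM_dec b r hdis (fun z => ‖φ z * qc X b g c₁ c₂ z‖) _ hSm hint.norm
    have hle1 : ∀ z, ‖φ z * qc X b g c₁ c₂ z‖ ≤ ‖qc X b g c₁ c₂ z‖ := by
      intro z
      rw [norm_mul]
      calc _ ≤ 1 * ‖qc X b g c₁ c₂ z‖ := mul_le_mul_of_nonneg_right (hφ1 z) (norm_nonneg _)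
        _ = _ := one_mul _
    have hfar2 : ∫ z in ((FKE f b κ ε \ KE b κ ε) ∪ (KE b κ ε \ FKE f b κ ε)) \ ⋃ i, ball (b i) (r i), ‖φ z * qc X b g c₁ c₂ z‖ ≤ τ / 2 := by
      have e1 : ((FKE f b κ ε \ KE b κ ε) ∪ (KE b κ ε \ FKE f b κ ε)) \ (⋃ i, ball (b i) (r i)) = (KE b κ ε \ FKE f b κ ε) \ ⋃ i, ball (b i) (r i) := by
        ext z
        constructor
        · rintro ⟨hz | hz, hz2⟩
          · exact absurd (hfarK z hz2) hz.2
          · exact ⟨hz, hz2⟩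
        · rintro ⟨hz, hz2⟩
          exact ⟨Or.inr hz, hz2⟩
      rw [e1]
      refine (setIntegral_mono ?_ ?_ hle1).trans hfar
      · exact (hint.mono_set (sdiff_subset.trans subset_union_right)).norm
      · exact ((hi1.mono_set sdiff_subset).mono_set sdiff_subset).norm
    refine ⟨?_, ?_⟩
    · refine hle.trans ?_
      rw [hdec]
      have h5 : ∀ i, ∫ z in ((FKE f b κ ε \ KE b κ ε) ∪ (KE b κ ε \ FKE f b κ ε)) ∩ ball (b i) (r i), ‖φ z * qc X b g c₁ c₂ z‖ ≤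
          2 * Real.pi * |Real.log (κ (i + 1) / (‖fd f (b i)‖ * κ i))| + τ / (2 * k) := by
        intro i
        refine (setIntegral_mono ?_ ?_ hle1).trans (hnear i)
        · exact (hint.mono_set inter_subset_left).norm
        · exact (hintq.mono_set inter_subset_left).norm
      have h6 := Finset.sum_le_sum fun i (_ : i ∈ (Finset.univ : Finset (ZMod k))) => h5 i
      rw [Finset.sum_add_distrib, hsumk, ← Finset.mul_sum] at h6
      linarith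
    · intro hφ0
      refine hle.trans ?_
      rw [hdec]
      have h5 : ∀ i, ∫ z in ((FKE f b κ ε \ KE b κ ε) ∪ (KE b κ ε \ FKE f b κ ε)) ∩ ball (b i) (r i), ‖φ z * qc X b g c₁ c₂ z‖ = 0 := by
        intro i
        refine setIntegral_eq_zero_of_forall_eq_zero fun z hz => ?_
        rw [hρφ hφ0 i z (ball_subset_ball (hr i).2 hz.2), zero_mul, norm_zero]
      rw [Finset.sum_congr rfl fun i _ => h5 i, Finset.sum_const_zero, zero_add]
      linarith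
  · obtain ⟨r, hr, hdis, ε₀, hε₀, hmain⟩ := LIM_main hRNA hQIN hCRC f X k b g c₁ c₂ hQ κ hκ τ hτ 1 one_pos
    refine ⟨ε₀, hε₀, fun ε he he2 => ?_⟩
    obtain ⟨hfarK, -, -, hnear⟩ := hmain ε he he2
    obtain ⟨hm1, hm2, hi1, hi2⟩ := hI2 κ hκ ε he
    rw [LIM_dec b r hdis (fun z => ‖qc X b g c₁ c₂ z‖) _ hm2 hi2.norm, LIM_dec b r hdis (fun z => ‖qc X b g c₁ c₂ z‖) _ hm1 hi1.norm]
    have h5 : ∫ z in FKE f b κ ε \ ⋃ i, ball (b i) (r i), ‖qc X b g c₁ c₂ z‖ ≤ ∫ z in KE b κ ε \ ⋃ i, ball (b i) (r i), ‖qc X b g c₁ c₂ z‖ := by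
      refine setIntegral_mono_set (IntegrableOn.mono_set hi1 sdiff_subset).norm (Eventually.of_forall fun z => norm_nonneg _) (LE.le.eventuallyLE ?_)
      rintro z ⟨-, hz⟩
      exact ⟨hfarK z hz, hz⟩
    have h6 := Finset.sum_le_sum fun i (_ : i ∈ (Finset.univ : Finset (ZMod k))) => hnear i
    rw [Finset.sum_sub_distrib, Finset.sum_add_distrib, hsumk, ← Finset.mul_sum] at h6
    have h7 : ∑ i, Real.log (‖fd f (b i)‖ * κ i / κ (i + 1)) = Real.log ‖rho f b‖ := by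
      have h8 : ∀ i, Real.log (‖fd f (b i)‖ * κ i / κ (i + 1)) = Real.log ‖fd f (b i)‖ + (Real.log (κ i) - Real.log (κ (i + 1))) := by
        intro i
        rw [Real.log_div (mul_pos (norm_pos_iff.2 (hQ.cyc.ne0 i)) (hκ i)).ne' (hκ (i + 1)).ne', Real.log_mul (norm_pos_iff.2 (hQ.cyc.ne0 i)).ne' (hκ i).ne']
        ring
      rw [Finset.sum_congr rfl fun i _ => h8 i, Finset.sum_add_distrib, Finset.sum_sub_distrib]
      have h9 : ∑ i : ZMod k, Real.log (κ (i + 1)) = ∑ i : ZMod k, Real.log (κ i) :=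
        Equiv.sum_comp (Equiv.addRight (1 : ZMod k)) (fun i => Real.log (κ i))
      rw [h9, sub_self, add_zero, rho, norm_prod, Real.log_prod (fun i _ => (norm_pos_iff.2 (hQ.cyc.ne0 i)).ne')]
    rw [h7] at h6
    linarith

end YW
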