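import Pool.Agent.helper61.CSW.W.SpecW

/-! csw:NR1: no cycle of multiplier one outside the exceptional set (helper61) -/

set_option autoImplicit false

open Complex Metric Set Filter Topology MeasureTheory
open YPPS (fd fdd pre TT CV IsCyc rho Exact)
open MPS (BB)
open Pool.Agent.helper98.ILF (juliaSet fatouSet)

noncomputable section

open CSS (SE SV JJ)

namespace YW

theorem NR1_iter {f : SE} {k : ℕ} [NeZero k] {b : ZMod k → ℂ} (h : IsCyc f b) (i : ZMod k) (n : ℕ) :
    (fun w : ℂ => f.eval w)^[n] (b i) = b (i + n) := by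
  induction n with
  | zero => simp
  | succ n ih =>
    rw [Function.iterate_succ_apply', ih, h.step]
    congr 1
    push_cast
    ring

theorem NR1_prod {k : ℕ} [NeZero k] (g : ZMod k → ℂ) :
    ∏ j ∈ Finset.range k, g (j : ZMod k) = ∏ i, g i := by
  refine Finset.prod_bij (fun j _ => (j : ZMod k)) (fun _ _ => Finset.mem_univ _) ?_ ?_ (fun _ _ => rfl)
  · intro a ha a' ha' he
    rw [Finset.mem_range] at ha ha'
    have h1 := (ZMod.natCast_eq_natCast_iff' a a' k).1 he
    rwa [Nat.mod_eq_of_lt ha, Nat.mod_eq_of_lt ha'] at h1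
  · intro x _
    exact ⟨x.val, Finset.mem_range.2 (ZMod.val_lt x), ZMod.natCast_zmod_val x⟩

/-- a solution of `r (i+1) = r i / a i` if the product is one. -/
theorem NR1_sol {k : ℕ} [NeZero k] (a : ZMod k → ℂ) (hp : ∏ i, a i = 1) :
    ∃ r : ZMod k → ℂ, r 0 = 1 ∧ ∀ i, r (i + 1) = r i / a i := by
  set R : ℕ → ℂ := fun n => ∏ j ∈ Finset.range n, (a (j : ZMod k))⁻¹ with hR
  have hper : Function.Periodic R k := by
    intro n
    simp only [hR]
    rw [Finset.prod_range_add]
    have h1 : ∏ x ∈ Finset.range k, (a ((n + x : ℕ) : ZMod k))⁻¹ = 1 := by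
      have h2 := NR1_prod (k := k) (fun i => (a ((n : ZMod k) + i))⁻¹)
      have h3 : ∏ i : ZMod k, (a ((n : ZMod k) + i))⁻¹ = 1 := by
        have h4 := Fintype.prod_equiv (Equiv.addLeft (n : ZMod k)) (fun i => (a ((n : ZMod k) + i))⁻¹)
          (fun i => (a i)⁻¹) (fun i => rfl)
        rw [h4, Finset.prod_inv_distrib, hp, inv_one]
      rw [h3] at h2
      rw [← h2]
      refine Finset.prod_congr rfl fun x _ => ?_
      push_cast
      rfl
    rw [h1, mul_one]
  refine ⟨fun i => R i.val, ?_, ?_⟩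
  · show R (0 : ZMod k).val = 1
    rw [ZMod.val_zero]
    simp [hR]
  · intro i
    have h1 : (i + 1 : ZMod k) = ((i.val + 1 : ℕ) : ZMod k) := by
      push_cast
      rw [ZMod.natCast_zmod_val]
    show R (i + 1).val = R i.val / a i
    rw [h1, ZMod.val_natCast, hper.map_mod_nat]
    simp only [hR]
    rw [Finset.prod_range_succ, ZMod.natCast_zmod_val, div_eq_mul_inv]

theorem NR1 (hNRQ : NRQ_stmt) (hTRE : CSS.TRE_stmt) (hTRC : CSS.TRC_stmt) : NR1_stmt := by
  classical
  intro f X E n μ w hS hp1 hp2 k _ b hb hbE hb1 hb2 hr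
  have hf1 : fd f X.p₁ ≠ 0 := by
    intro h
    have := X.rep1
    rw [h, norm_zero] at this
    linarith
  have hf2 : fd f X.p₂ ≠ 0 := by
    intro h
    have := X.rep2
    rw [h, norm_zero] at this
    linarith
  obtain ⟨r, hr0, hr1⟩ := NR1_sol (fun i => fd f (b i)) hr
  have hne : X.p₂ - X.p₁ ≠ 0 := sub_ne_zero.mpr X.ne.symm
  obtain ⟨c₁, c₂, hm0, hm1⟩ : ∃ c₁ c₂ : ℂ, ∑ i, r i + c₁ + c₂ = 0 ∧ ∑ i, r i * b i + c₁ * X.p₁ + c₂ * X.p₂ = 0 := by
    refine ⟨((∑ i, r i * b i) - (∑ i, r i) * X.p₂) / (X.p₂ - X.p₁), -((∑ i, r i * b i) - (∑ i, r i) * X.p₁) / (X.p₂ - X.p₁), ?_, ?_⟩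
    · field_simp
      ring
    · field_simp
      ring
  let G : ZMod k ⊕ Bool → ℂ := Sum.elim r (fun l => cond l c₁ c₂)
  let p : ZMod k ⊕ Bool → ℂ := Sum.elim b (fun l => cond l X.p₁ X.p₂)
  have hint : Integrable (fun z : ℂ => ∑ i ∈ (Finset.univ : Finset (ZMod k ⊕ Bool)), G i / (z - p i)) := by
    refine hTRC (ZMod k ⊕ Bool) Finset.univ G p ?_ ?_
    · rw [Fintype.sum_sum_type, Fintype.sum_bool]
      simp only [G, Sum.elim_inl, Sum.elim_inr, cond_true, cond_false]
      rw [← add_assoc]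
      exact hm0
    · rw [Fintype.sum_sum_type, Fintype.sum_bool]
      simp only [G, p, Sum.elim_inl, Sum.elim_inr, cond_true, cond_false]
      rw [← add_assoc]
      exact hm1
  obtain ⟨σ, hσ⟩ := hTRE f (ZMod k ⊕ Bool) Finset.univ G p hint
  -- the finset of the poles
  let Q : Finset ℂ := insert X.p₁ (insert X.p₂ (Finset.univ.image b))
  let ro : ℂ → ℂ := fun e => if e = X.p₁ then c₁ else if e = X.p₂ then c₂ else r (Function.invFun b e)
  have hro1 : ro X.p₁ = c₁ := if_pos rfl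
  have hro2 : ro X.p₂ = c₂ := by
    show (if X.p₂ = X.p₁ then _ else if X.p₂ = X.p₂ then _ else _) = _
    rw [if_neg (Ne.symm X.ne), if_pos rfl]
  have hrob : ∀ i, ro (b i) = r i := by
    intro i
    show (if b i = X.p₁ then _ else if b i = X.p₂ then _ else _) = _
    rw [if_neg (hb1 i), if_neg (hb2 i), Function.leftInverse_invFun hb.inj i]
  have hn2 : X.p₂ ∉ Finset.univ.image b := by
    rw [Finset.mem_image]
    rintro ⟨i, -, h⟩
    exact hb2 i h
  have hn1 : X.p₁ ∉ insert X.p₂ (Finset.univ.image b) := by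
    rw [Finset.mem_insert, not_or, Finset.mem_image]
    refine ⟨X.ne, ?_⟩
    rintro ⟨i, -, h⟩
    exact hb1 i h
  have hsum : ∀ φ : ℂ → ℂ → ℂ, ∑ e ∈ Q, φ (ro e) e = φ c₁ X.p₁ + (φ c₂ X.p₂ + ∑ i, φ (r i) (b i)) := by
    intro φ
    show ∑ e ∈ insert X.p₁ (insert X.p₂ (Finset.univ.image b)), φ (ro e) e = _
    rw [Finset.sum_insert hn1, Finset.sum_insert hn2, hro1, hro2, Finset.sum_image (fun i _ j _ h => hb.inj h)]
    simp only [hrob]
  have hq : ∀ z, RS Q ro z = ∑ i ∈ (Finset.univ : Finset (ZMod k ⊕ Bool)), G i / (z - p i) := by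
    intro z
    unfold RS
    rw [hsum (fun x e => x / (z - e)), Fintype.sum_sum_type, Fintype.sum_bool]
    simp only [G, p, Sum.elim_inl, Sum.elim_inr, cond_true, cond_false]
    ring
  have hq' : RS Q ro = (fun z : ℂ => ∑ i ∈ (Finset.univ : Finset (ZMod k ⊕ Bool)), G i / (z - p i)) := funext hq
  -- the residues of the error
  let c : ℂ → ℂ := fun e => if e = X.p₁ then c₁ * (1 / fd f X.p₁ - 1) else if e = X.p₂ then c₂ * (1 / fd f X.p₂ - 1) else σ e
  have hc1 : c X.p₁ = c₁ * (1 / fd f X.p₁ - 1) := if_pos rfl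
  have hc2 : c X.p₂ = c₂ * (1 / fd f X.p₂ - 1) := by
    show (if X.p₂ = X.p₁ then _ else if X.p₂ = X.p₂ then _ else _) = _
    rw [if_neg (Ne.symm X.ne), if_pos rfl]
  have hcv : ∀ v ∈ SV f, c v = σ v := by
    intro v hv
    show (if v = X.p₁ then _ else if v = X.p₂ then _ else _) = _
    rw [if_neg (by rintro rfl; exact X.ns1 hv), if_neg (by rintro rfl; exact X.ns2 hv)]
  have hRS : ∀ z, RS (ES f X) c z = c₁ * (1 / fd f X.p₁ - 1) / (z - X.p₁) + (c₂ * (1 / fd f X.p₂ - 1) / (z - X.p₂) + ∑ v ∈ SV f, σ v / (z - v)) := by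
    intro z
    unfold RS ES
    rw [Finset.sum_insert, Finset.sum_insert X.ns2, hc1, hc2]
    · congr 2
      exact Finset.sum_congr rfl fun v hv => by rw [hcv v hv]
    · rw [Finset.mem_insert, not_or]
      exact ⟨X.ne, X.ns1⟩
  have hbad : (↑(SV f) ∪ (range b ∪ {X.p₁, X.p₂}) : Set ℂ).Finite :=
    (SV f).finite_toSet.union ((finite_range b).union ((finite_singleton _).insert _))
  have heq : ∀ᵐ z : ℂ, TT f (RS Q ro) z - RS Q ro z = RS (ES f X) c z := by
    filter_upwards [hbad.countable.ae_notMem volume] with z hz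
    simp only [mem_union, not_or, mem_insert_iff, mem_singleton_iff, Finset.mem_coe] at hz
    obtain ⟨hz1, hz2, hz3, hz4⟩ := hz
    have h1 := hσ z (by rw [SPPS.mem_CV]; exact hz1) (by
      intro i _
      rcases i with i | l
      · intro h
        apply hz2
        exact ⟨i + 1, by rw [h]; exact (hb.step i).symm⟩
      · cases l
        · intro h
          exact hz4 (h.trans X.fix2)
        · intro h
          exact hz3 (h.trans X.fix1))
    rw [← hq', Fintype.sum_sum_type, Fintype.sum_bool] at h1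
    simp only [G, p, Sum.elim_inl, Sum.elim_inr, cond_true, cond_false] at h1
    rw [X.fix1, X.fix2] at h1
    have h2 : ∑ i : ZMod k, r i / fd f (b i) / (z - f.eval (b i)) = ∑ i, r i / (z - b i) := by
      rw [← Equiv.sum_comp (Equiv.addRight (1 : ZMod k)) (fun i => r i / (z - b i))]
      refine Finset.sum_congr rfl fun i _ => ?_
      rw [Equiv.coe_addRight, hb.step i, hr1 i]
    rw [h2] at h1
    rw [h1, hRS z]
    unfold RS
    rw [hsum (fun x e => x / (z - e))]
    have h3 : z - X.p₁ ≠ 0 := sub_ne_zero.2 hz3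
    have h4 : z - X.p₂ ≠ 0 := sub_ne_zero.2 hz4
    ring
  have hfin := hNRQ f X E n μ w hS Q ro c ?_ ?_ heq (b 0) ?_
  · rw [hrob 0, hr0] at hfin
    exact one_ne_zero hfin
  · intro e he
    simp only [Q, Finset.mem_insert, Finset.mem_image, Finset.mem_univ, true_and] at he
    rcases he with rfl | rfl | ⟨i, rfl⟩
    · exact ⟨hp1, 1, le_rfl, X.fix1⟩
    · exact ⟨hp2, 1, le_rfl, X.fix2⟩
    · refine ⟨hbE i, k, Nat.one_le_iff_ne_zero.2 (NeZero.ne k), ?_⟩
      show (fun w : ℂ => f.eval w)^[k] (b i) = b i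
      rw [NR1_iter hb i k]
      simp
  · refine ⟨?_, ?_⟩
    · rw [hsum (fun x _ => x)]
      rw [← hm0]
      ring
    · rw [hsum (fun x e => x * e)]
      rw [← hm1]
      ring
  · simp only [Q, Finset.mem_insert, Finset.mem_image, Finset.mem_univ, true_and]
    exact Or.inr (Or.inr ⟨0, rfl⟩)

end YW
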