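import Pool.Agent.helper61.CSW.W.SpecW

/-!
# ew:SMS : images of discs about repelling periodic points in a bounded region (copy of NET and SMA of helper99 and helper31)
-/

set_option autoImplicit false

open Complex Metric Set Filter Topology MeasureTheory
open YPPS (fd fdd pre TT CV IsCyc rho Exact)
open MPS (BB)
open Pool.Agent.helper98.ILF (juliaSet fatouSet)

noncomputable section

open CSS (SE SV JJ)

namespace YW

theorem SMS_net (f : SE) (s a : ℝ) (hs : 0 < s) : ∃ W : Finset ℂ,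
    (∀ w ∈ W, ∃ k, Rep f k w) ∧
      ∀ (k : ℕ) (z : ℂ), Rep f k z → ‖z‖ ≤ a → ∃ w ∈ W, ‖w - z‖ < s := by
  set S : Set ℂ := {z | (∃ k, Rep f k z) ∧ ‖z‖ ≤ a} with hS
  have hsub : S ⊆ closedBall (0 : ℂ) a := by
    rintro z ⟨-, hz⟩
    rwa [mem_closedBall_zero_iff]
  have htb : TotallyBounded S := (isCompact_closedBall (0 : ℂ) a).totallyBounded.subset hsub
  obtain ⟨t, htS, htf, hcov⟩ := Metric.finite_approx_of_totallyBounded htb s hs
  refine ⟨htf.toFinset, ?_, ?_⟩
  · intro w hw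
    exact (htS (htf.mem_toFinset.1 hw)).1
  · intro k z hz hza
    have hzS : z ∈ S := ⟨⟨k, hz⟩, hza⟩
    have := hcov hzS
    simp only [mem_iUnion, exists_prop] at this
    obtain ⟨w, hw, hzw⟩ := this
    refine ⟨w, htf.mem_toFinset.2 hw, ?_⟩
    rw [mem_ball, dist_eq_norm, norm_sub_rev] at hzw
    exact hzw

theorem SMS_diff (f : SE) (m : ℕ) : Differentiable ℂ (it f m) := f.differentiable.iterate m

theorem SMS_cau (f : SE) (s : ℝ) (hs : 0 < s) (m : ℕ) (p q w : ℂ) (t : ℝ)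
    (hw : ‖w - p‖ < s / 2) (h : ∀ z, ‖z - p‖ < s → ‖it f m z - q‖ ≤ t) :
    ‖deriv (it f m) w‖ ≤ t / (s / 4) := by
  have hd : Differentiable ℂ (it f m) := SMS_diff f m
  have h1 : deriv (fun z => it f m z - q) w = deriv (it f m) w := by
    rw [deriv_sub_const]
  rw [← h1]
  refine Complex.norm_deriv_le_of_forall_mem_sphere_norm_le (by positivity)
    ((hd.sub_const q).diffContOnCl) fun z hz => ?_
  apply h
  rw [mem_sphere, dist_eq_norm] at hz
  calc ‖z - p‖ = ‖(z - w) + (w - p)‖ := by rw [sub_add_sub_cancel]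
    _ ≤ ‖z - w‖ + ‖w - p‖ := norm_add_le _ _
    _ < s := by linarith

theorem SMS (hDLE : DLS_stmt) : SMS_stmt := by
  intro f s a hs
  obtain ⟨W, hW, hnet⟩ := SMS_net f (s / 2) a (by positivity)
  constructor
  · have h1 : ∀ᶠ κ in 𝓝[>] (0 : ℝ), ∀ w ∈ W, ∀ m : ℕ, κ ≤ ‖deriv (it f m) w‖ := by
      rw [Filter.eventually_all_finset]
      intro w hw
      obtain ⟨k, hk⟩ := hW w hw
      obtain ⟨κ, hκ, h2⟩ := (hDLE f k w hk).1
      filter_upwards [Ioc_mem_nhdsGT hκ] with κ' hκ' m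
      exact hκ'.2.trans (h2 m)
    obtain ⟨κ, hκ, hκ0⟩ := (h1.and self_mem_nhdsWithin).exists
    have hκ0' : 0 < κ := hκ0
    refine ⟨κ * (s / 4), by positivity, fun m k p q t hp hpa h => ?_⟩
    obtain ⟨w, hw, hwp⟩ := hnet k p hp hpa
    have h2 := (hκ w hw m).trans (SMS_cau f s hs m p q w t hwp h)
    rwa [le_div_iff₀ (by positivity)] at h2
  · intro M
    have h1 : ∀ᶠ m : ℕ in atTop, ∀ w ∈ W, M / (s / 4) < ‖deriv (it f m) w‖ := by
      rw [Filter.eventually_all_finset]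
      intro w hw
      obtain ⟨k, hk⟩ := hW w hw
      exact (hDLE f k w hk).2.eventually_gt_atTop _
    obtain ⟨K₀, hK⟩ := eventually_atTop.1 h1
    refine ⟨K₀, fun m k p q t hm hp hpa h => ?_⟩
    obtain ⟨w, hw, hwp⟩ := hnet k p hp hpa
    have h2 := (hK m hm w hw).trans_le (SMS_cau f s hs m p q w t hwp h)
    exact ((div_lt_div_iff_of_pos_right (by positivity)).1 h2).le

end YW
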