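import Pool.Agent.helper61.CSW.W.SpecW

set_option autoImplicit false

open Complex Metric Set Filter Topology MeasureTheory
open YPPS (fd fdd pre TT CV IsCyc rho Exact)
open MPS (BB)
open Pool.Agent.helper98.ILF (juliaSet fatouSet)

noncomputable section

open CSS (SE SV JJ)

namespace YW

theorem TGS_hom {k : ℕ} [NeZero k] (a g : ZMod k → ℂ) (ha : ∀ i, a i ≠ 0) (hp : ∏ i, a i ≠ 1)
    (hg : ∀ i, g (i + 1) = a i * g i) : g = 0 := by
  by_contra hne
  have hall : ∀ j, g j ≠ 0 := by
    intro j hj
    apply hne
    funext i
    have key : ∀ m : ℕ, g (j + (m : ZMod k)) = 0 := by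
      intro m
      induction m with
      | zero => simpa using hj
      | succ m ih =>
        have := hg (j + (m : ZMod k))
        rw [ih, mul_zero] at this
        rw [Nat.cast_succ, ← add_assoc]
        exact this
    have h1 := key (i - j).val
    rw [ZMod.natCast_zmod_val] at h1
    simpa using h1
  have h1 : ∏ i, g (i + 1) = (∏ i, a i) * ∏ i, g i := by
    rw [← Finset.prod_mul_distrib]
    exact Finset.prod_congr rfl fun i _ => hg i
  have h2 : ∏ i, g (i + 1) = ∏ i, g i :=
    Fintype.prod_equiv (Equiv.addRight (1 : ZMod k)) _ _ (fun i => by simp)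
  have h3 : ∏ i, g i ≠ 0 := Finset.prod_ne_zero_iff.mpr fun i _ => hall i
  rw [h2] at h1
  apply hp
  have h4 : (∏ i, a i) * ∏ i, g i = 1 * ∏ i, g i := by rw [← h1, one_mul]
  exact mul_right_cancel₀ h3 h4

theorem TGS : TGS_stmt := by
  intro k _ f b _hb hrho
  have hfd : ∀ i, fd f (b i) ≠ 0 := _hb.ne0
  let L : (ZMod k → ℂ) →ₗ[ℂ] (ZMod k → ℂ) :=
    { toFun := fun g i => g (i + 1) - g i / fd f (b i)
      map_add' := by
        intro x y
        funext i
        simp only [Pi.add_apply]
        ring
      map_smul' := by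
        intro r x
        funext i
        simp only [Pi.smul_apply, smul_eq_mul, RingHom.id_apply]
        ring }
  have hL : ∀ g i, L g i = g (i + 1) - g i / fd f (b i) := fun g i => rfl
  have hinj : Function.Injective L := by
    rw [← LinearMap.ker_eq_bot, LinearMap.ker_eq_bot']
    intro g hg
    apply TGS_hom (fun i => (fd f (b i))⁻¹) g
    · intro i
      exact inv_ne_zero (hfd i)
    · rw [Finset.prod_inv_distrib]
      intro h
      apply hrho
      unfold rho
      exact inv_eq_one.mp h
    · intro i
      have h1 := congrFun hg i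
      rw [hL] at h1
      have h2 : g (i + 1) = g i / fd f (b i) := by
        simpa [sub_eq_zero] using h1
      rw [h2, div_eq_mul_inv, mul_comm]
  have hsurj : Function.Surjective L := LinearMap.injective_iff_surjective.mp hinj
  obtain ⟨g, hg⟩ := hsurj (fun i => - (fdd f (b i) / fd f (b i) ^ 2))
  refine ⟨g, ?_⟩
  intro i
  have h1 := congrFun hg i
  rw [hL] at h1
  linear_combination h1

end YW
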