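import Pool.Agent.helper61.CSW.W.SpecW

/-! ew:ZCS: periodic points and cycles -/

set_option autoImplicit false

open Complex Metric Set Filter Topology MeasureTheory

noncomputable section

open CSS (SE SV JJ)
open YPPS

namespace YW

theorem ZCS_iter (f : SE) (z : ℂ) (m : ℕ) :
    HasDerivAt ((fun w : ℂ => f.eval w)^[m])
      (∏ j ∈ Finset.range m, fd f ((fun w : ℂ => f.eval w)^[j] z)) z := by
  induction m with
  | zero => simpa using hasDerivAt_id z
  | succ m ih =>
    rw [Function.iterate_succ', Finset.prod_range_succ, mul_comm]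
    exact HasDerivAt.comp z (f.hasDerivAt _) ih

theorem ZCS : ZCS_stmt := by
  intro f k _ z hcyc hm0
  obtain ⟨hk0, hk⟩ := hcyc
  set b : ZMod k → ℂ := fun i => (fun w : ℂ => f.eval w)^[i.val] z with hb
  have hbj : ∀ j : ℕ, b (j : ZMod k) = (fun w : ℂ => f.eval w)^[j] z := by
    intro j
    show (fun w : ℂ => f.eval w)^[(j : ZMod k).val] z = _
    rw [ZMod.val_natCast]
    have := Function.iterate_mod_minimalPeriod_eq (f := fun w : ℂ => f.eval w) (x := z) (n := j)
    rw [hk] at this
    exact this
  have hrho : rho f b = mlt f k z := by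
    unfold mlt rho
    rw [(ZCS_iter f z k).deriv]
    refine Finset.prod_nbij' (fun i : ZMod k => i.val) (fun j : ℕ => (j : ZMod k)) ?_ ?_ ?_ ?_ ?_
    · intro i _
      exact Finset.mem_range.2 (ZMod.val_lt i)
    · intro j _
      exact Finset.mem_univ _
    · intro i _
      exact ZMod.natCast_zmod_val i
    · intro j hj
      exact ZMod.val_cast_of_lt (Finset.mem_range.1 hj)
    · intro i _
      rfl
  have hinj : Function.Injective b := by
    intro i j hij
    have hi := ZMod.val_lt i
    have hj := ZMod.val_lt j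
    have := Function.iterate_injOn_Iio_minimalPeriod (f := fun w : ℂ => f.eval w) (x := z)
      (show i.val ∈ Set.Iio (Function.minimalPeriod (fun w : ℂ => f.eval w) z) by rw [hk]; exact hi)
      (show j.val ∈ Set.Iio (Function.minimalPeriod (fun w : ℂ => f.eval w) z) by rw [hk]; exact hj)
      hij
    exact ZMod.val_injective k this
  have hstep : ∀ i, f.eval (b i) = b (i + 1) := by
    intro i
    have h1 : i + 1 = ((i.val + 1 : ℕ) : ZMod k) := by
      push_cast
      rw [ZMod.natCast_zmod_val]
    rw [h1, hbj, Function.iterate_succ_apply']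
  have hne : ∀ i, fd f (b i) ≠ 0 := by
    rw [← hrho] at hm0
    exact fun i => Finset.prod_ne_zero_iff.1 hm0 i (Finset.mem_univ i)
  refine ⟨b, ⟨hinj, hstep, hne⟩, ?_, hbj, hrho⟩
  have := hbj 0
  simpa using this

end YW
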