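import Pool.Agent.helper61.CSW.W.KAP
import Pool.Agent.helper61.CSW.W.LNS
import Pool.Agent.helper61.CSW.W.DLS
import Pool.Agent.helper61.CSW.W.SMS
import Pool.Agent.helper61.CSW.W.IVR
import Pool.Agent.helper61.CSW.W.ZCS
import Pool.Agent.helper61.CSW.W.TGS
import Pool.Agent.helper13.CSW.FXG
import Pool.Agent.helper71.CSW.FX2
import Pool.Agent.helper82.CSW.NPE
import Pool.Agent.helper96.CSW.TD2
import Pool.Agent.helper61.CSW.W.ECE
import Pool.Agent.helper19.CSW.QIN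
import Pool.Agent.helper99.CSW.ERC
import Pool.Agent.helper38.CSW.DBW
import Pool.Agent.helper20.CSW.GDU
import Pool.Agent.helper16.CSW.RNA
import Pool.Agent.helper61.CSW.W.LIM
import Pool.Agent.helper58.CSW.INE
import Pool.Agent.helper20.CSW.ENS
import Pool.Agent.helper11.CSW.NRPA
import Pool.Agent.helper95.CSW.NRP
import Pool.Agent.helper44.CSW.RSZ
import Pool.Agent.helper57.CSW.NRQ
import Pool.Agent.helper61.CSW.W.NR1
import Pool.Agent.helper61.CSW.W.NR0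
import Pool.Agent.helper92.CSW.NRC
import Pool.Agent.helper5.CSW.SBS
import Pool.Agent.helper64.CSW.POS
import Pool.Agent.helper9.CSW.IVS
import Pool.Agent.helper54.CSW.FNS
import Pool.Agent.helper26.CSW.SQS
import Pool.Agent.helper8.CSW.WFG
import Pool.Agent.helper29.CSW.ATS
import Pool.Agent.helper85.CSW.KXP
import Pool.Agent.helper12.CSW.VFS
import Pool.Agent.helper74.CSW.EQS
import Pool.Agent.helper77.CSW.NUS
import Pool.Agent.helper97.CSW.LIS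
import Pool.Agent.helper4.CSW.WFS
import Pool.Agent.helper91.CSS.AllT
import Pool.Agent.helper61.CSW.PP.All
import Pool.Agent.helper61.CSW.XP.AllX
import Pool.Agent.helper38.EXQ.KER
import Pool.Agent.helper4.EXQ.VCN
import Pool.Agent.helper1.EXQ.DEN
import Pool.Agent.helper92.EXQ.DNB
import Pool.Agent.helper48.EXQ.VWK
import Pool.Agent.helper84.BR.CPF

/-!
# Project csw: (MP_70a088_an, class S), block W: assembly (helper61)

`YW.WFS_w`: a map of class S with at least as many linearly independent invariant line fields on its Julia set as singular values has uniformly repelling cycles.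
-/

set_option autoImplicit false

noncomputable section

namespace YW

theorem KAP_w : KAP_stmt := KAP
theorem LNS_w : LNS_stmt := LNS
theorem DLS_w : DLS_stmt := DLS
theorem SMS_w : SMS_stmt := SMS DLS_w
theorem IVR_w : IVR_stmt := IVR LNS_w SMS_w
theorem ZCS_w : ZCS_stmt := ZCS
theorem TGS_w : TGS_stmt := TGS
theorem FXG_w : FXG_stmt := FXG
theorem FX2_w : FX2_stmt := FX2 FXG_w CSS.RAX_t CSS.NPL_t CSS.LGB_t CSS.LGD_t
theorem NPE_w : NPE_stmt := NPE FX2_w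
theorem TD2_w : TD2_stmt := TD2 CSS.TRE_t CSS.TRC_t YPPS.SMB_p
theorem ECE_w : ECE_stmt := ECE TGS_w
theorem QIN_w : QIN_stmt := QIN CSS.TRC_t
theorem ERC_w : ERC_stmt := ERC TD2_w QIN_w CSS.TIN_t CSS.TRM_t
theorem DBW_w : DBW_stmt := DBW
theorem GDU_w : GDU_stmt := GDU CSS.TIN_t
theorem RNA_w : RNA_stmt := RNA
theorem LIM_w : LIM_stmt := LIM RNA_w QIN_w SPPS.CRC_t
theorem INE_w : INE_stmt := INE LIM_w KAP_w QIN_w GDU_w DBW_w CSS.TIN_t CSS.TRC_t SPPS.CRC_t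
theorem ENS_w : ENS_stmt := ENS LIM_w QIN_w YPPS.MCV_p YPPS.SMB_p YXPS.MIX_x CSS.TRC_t
theorem NRPA_w : NRPA_stmt := NRPA YPPS.SMB_p YPPS.MCV_p SPPS.CRC_t
theorem NRP_w : NRP_stmt := NRP NRPA_w YPPS.SMB_p CSS.RAX_t CSS.LGB_t CSS.NPL_t
theorem RSZ_w : RSZ_stmt := RSZ
theorem NRQ_w : NRQ_stmt := NRQ CSS.TIN_t CSS.TRM_t CSS.TRC_t YPPS.MS_p YPPS.MCV_p YPPS.SMB_p GDU_w DBW_w NRP_w RSZ_w
theorem NR1_w : NR1_stmt := NR1 NRQ_w CSS.TRE_t CSS.TRC_t
theorem NR0_w : NR0_stmt := NR0 NRQ_w CSS.TRE_t CSS.TRC_t CSS.IFC_t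
theorem NRC_w : NRC_stmt := NRC QIN_w NR0_w NR1_w ZCS_w ECE_w ERC_w INE_w ENS_w NRP_w RSZ_w YXPS.MIX_x
theorem SBS_w : SBS_stmt := SBS CSS.TRC_t
theorem POS_w : POS_stmt := POS CSS.TTE_t CSS.IFC_t
theorem IVS_w : IVS_stmt := IVS POS_w SMS_w IVR_w
theorem FNS_w : FNS_stmt := FNS CSS.TTE_t YPPS.NIJ_p CSS.IFC_t
theorem SQS_w : SQS_stmt := SQS ZCS_w FNS_w
theorem WFG_w : WFG_stmt := WFG NRC_w SQS_w ECE_w ERC_w INE_w ENS_w SBS_w IVS_w
theorem ATS_w : ATS_stmt := ATS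
theorem KXP_w : KXP_stmt := KXP EXQ.KER (EXQ.VCN EXQ.KER)
theorem VFS_w : VFS_stmt := VFS KXP_w GDU_w CSS.TRE_t CSS.TIN_t CSS.TRM_t BR.CPF
theorem EQS_w : EQS_stmt := EQS
theorem NUS_w : NUS_stmt := NUS VFS_w EQS_w KXP_w ATS_w (EXQ.DEN (EXQ.DNB EXQ.KER) (EXQ.VWK EXQ.KER))
theorem LIS_w : LIS_stmt := LIS NUS_w KXP_w ATS_w
theorem WFS_w : WFS_stmt := WFS WFG_w LIS_w NPE_w

/-- THE RESULT OF BLOCK W, no hypotheses left. -/
theorem WFS_all (f : CSS.SE) (n : ℕ) (μ : Fin n → ℂ → ℂ) (h : ∀ i, IF f (μ i)) (hn : (CSS.SV f).card ≤ n)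
    (hi : ∀ a : Fin n → ℂ, (∀ᵐ z : ℂ, ∑ i, a i * μ i z = 0) → a = 0) : WW f :=
  WFS_w YXPA.XM_a f n μ h hn hi

end YW
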