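import Pool.Agent.helper61.CSW.W.SpecW

/-! ew: KAP: radii along a cycle. -/

set_option autoImplicit false

open Complex Metric Set Filter Topology MeasureTheory
open YPPS (fd fdd pre TT CV IsCyc rho Exact)
open MPS (BB)

noncomputable section

open CSS (SE)

namespace YW

theorem KAP_prod {M : Type*} [CommMonoid M] (k : ℕ) [NeZero k] (a : ZMod k → M) :
    ∏ j ∈ Finset.range k, a (j : ZMod k) = ∏ i, a i := by
  refine Finset.prod_nbij (fun j : ℕ => (j : ZMod k)) (fun _ _ => Finset.mem_univ _) ?_ ?_
    (fun _ _ => rfl)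
  · intro j hj j' hj' h
    have h1 := congrArg ZMod.val h
    simp only at h1
    rwa [ZMod.val_natCast_of_lt (Finset.mem_range.1 hj),
      ZMod.val_natCast_of_lt (Finset.mem_range.1 hj')] at h1
  · intro i _
    refine ⟨i.val, ?_, ?_⟩
    · simpa using ZMod.val_lt i
    · simp

theorem KAP : KAP_stmt := by
  intro k _ a ha
  have hval : ∀ i : ZMod k, ((i.val : ℕ) : ZMod k) = i := ZMod.natCast_zmod_val
  have hcast : ∀ i : ZMod k, i + 1 = ((i.val + 1 : ℕ) : ZMod k) := by
    intro i
    push_cast
    rw [hval]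
  set κ : ZMod k → ℝ := fun i => ∏ j ∈ Finset.range i.val, a (j : ZMod k) with hκ
  have hκ0 : ∀ i, 0 < κ i := fun i => Finset.prod_pos fun j _ => ha _
  have hk0 : 0 < k := Nat.pos_of_ne_zero (NeZero.ne k)
  have hlast : ∀ i : ZMod k, i.val + 1 < k → κ (i + 1) = a i * κ i := by
    intro i h
    have h1 : (i + 1).val = i.val + 1 := by
      rw [hcast]
      exact ZMod.val_natCast_of_lt h
    show ∏ j ∈ Finset.range (i + 1).val, a (j : ZMod k) = _
    rw [h1, Finset.prod_range_succ, hval, mul_comm]
  refine ⟨κ, hκ0, ?_⟩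
  have hlt : k - 1 < k := by omega
  set l : ZMod k := ((k - 1 : ℕ) : ZMod k) with hl
  have hlv : l.val = k - 1 := ZMod.val_natCast_of_lt hlt
  rw [Finset.sum_eq_single l]
  · have h1 : l + 1 = 0 := by
      rw [hcast, hlv, Nat.sub_add_cancel hk0, ZMod.natCast_self]
    have h2 : κ 0 = 1 := by simp [hκ]
    have h3 : a l * κ l = ∏ i, a i := by
      rw [← KAP_prod k a]
      have h5 : Finset.range k = Finset.range ((k - 1) + 1) := by rw [Nat.sub_add_cancel hk0]
      rw [h5, Finset.prod_range_succ, mul_comm]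
      have h6 : κ l = ∏ j ∈ Finset.range (k - 1), a (j : ZMod k) := by
        simp only [hκ]
        rw [hlv]
      rw [h6]
    rw [h1, h2, h3, one_div, Real.log_inv, abs_neg]
  · intro i _ hil
    have h1 : i.val + 1 < k := by
      have h2 := ZMod.val_lt i
      by_contra h3
      apply hil
      rw [hl, ← hval i]
      congr 1
      omega
    rw [hlast i h1, div_self (mul_pos (ha i) (hκ0 i)).ne', Real.log_one, abs_zero]
  · intro h
    exact absurd (Finset.mem_univ _) h

end YW
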