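import Pool.Agent.helper61.CSW.W.SpecW
import Pool.Agent.helper92.CSW.NRC

/-! csw:NR0: no superattracting cycle outside the exceptional set (helper61) -/

set_option autoImplicit false

open Complex Metric Set Filter Topology MeasureTheory
open YPPS (fd fdd pre TT CV IsCyc rho Exact)
open MPS (BB)
open Pool.Agent.helper98.ILF (juliaSet fatouSet)

noncomputable section

open CSS (SE SV JJ)

namespace YW

theorem NR0 (hNRQ : NRQ_stmt) (hTRE : CSS.TRE_stmt) (hTRC : CSS.TRC_stmt) (hIFC : CSS.IFC_stmt) : NR0_stmt := by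
  classical
  intro f X E n μ w hS hE z m hm hz hzE h0
  have hp1 : X.p₁ ∉ E := NRC_notE f E hE X.p₁ X.fix1 X.rep1
  have hp2 : X.p₂ ∉ E := NRC_notE f E hE X.p₂ X.fix2 X.rep2
  have hf1 : fd f X.p₁ ≠ 0 := by
    intro h
    have := X.rep1
    rw [h, norm_zero] at this
    linarith
  have hf2 : fd f X.p₂ ≠ 0 := by
    intro h
    have := X.rep2
    rw [h, norm_zero] at this
    linarith
  -- a critical point of the cycle
  rw [NRC_mlt, Finset.prod_eq_zero_iff] at h0
  obtain ⟨s, hs, hs0⟩ := h0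
  rw [Finset.mem_range] at hs
  let x : ℕ → ℂ := fun j => it f (s + 1 + j) z
  have hx : ∀ j, x j = it f (s + 1 + j) z := fun j => rfl
  have hxs : ∀ j, f.eval (x j) = x (j + 1) := by
    intro j
    rw [hx, hx]
    show f.eval ((fun w : ℂ => f.eval w)^[s + 1 + j] z) = (fun w : ℂ => f.eval w)^[s + 1 + (j + 1)] z
    rw [← add_assoc, Function.iterate_succ_apply']
  have hitm : ∀ N, it f (N * m) z = z := fun N => (NRC_mlt_mul f m N z hz).1
  have hxper : ∀ j, it f m (x j) = x j := by
    intro j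
    rw [hx, ← NRC_it_add, add_comm m, NRC_it_add, hz]
  have hxper' : ∀ j N, x (j + N * m) = x j := by
    intro j N
    rw [hx, hx, ← add_assoc, NRC_it_add, hitm]
  have hx0 : x 0 ∈ SV f := by
    have h1 : x 0 = f.eval (it f s z) := by
      rw [hx]
      show (fun w : ℂ => f.eval w)^[s + 1 + 0] z = f.eval ((fun w : ℂ => f.eval w)^[s] z)
      rw [add_zero, Function.iterate_succ_apply']
    rw [h1]
    exact ((hIFC f).2.2.2.2.2.2.2.2 _).2 ((hIFC f).2.2.2.2.2.2.2.1 _ hs0)
  have hcrit : fd f (x (m - 1)) = 0 := by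
    have h1 : x (m - 1) = it f s z := by
      rw [hx, show s + 1 + (m - 1) = s + m by omega, NRC_it_add, hz]
    rw [h1]
    exact hs0
  have hex : ∃ t, fd f (x t) = 0 := ⟨m - 1, hcrit⟩
  set t := Nat.find hex with ht
  have ht0 : fd f (x t) = 0 := Nat.find_spec hex
  have htmin : ∀ j < t, fd f (x j) ≠ 0 := fun j hj => Nat.find_min hex hj
  -- injectivity
  have hx2 : ∀ i l, x (i + l) = it f l (x i) := by
    intro i l
    rw [hx, hx, show s + 1 + (i + l) = l + (s + 1 + i) by omega, NRC_it_add f l (s + 1 + i)]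
  have hshift : ∀ i j l, x i = x j → x (i + l) = x (j + l) := by
    intro i j l h
    rw [hx2, hx2, h]
  have hinj : Set.InjOn x (Finset.range (t + 1)) := by
    have key : ∀ i j, i < j → j ≤ t → x i ≠ x j := by
      intro i j hij hjt h
      have h1 := hshift i j (t - j) h
      rw [show j + (t - j) = t by omega] at h1
      exact htmin (i + (t - j)) (by omega) (by rw [h1]; exact ht0)
    intro i hi j hj h
    rw [Finset.coe_range, mem_Iio] at hi hj
    rcases lt_trichotomy i j with h1 | h1 | h1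
    · exact absurd h (key i j h1 (by omega))
    · exact h1
    · exact absurd h.symm (key j i h1 (by omega))
  -- the points are not the fixed points
  have hfix : ∀ p, f.eval p = p → fd f p ≠ 0 → ∀ j, x j ≠ p := by
    intro p hp hfp j h
    have h1 : ∀ l, x (j + l) = p := by
      intro l
      induction l with
      | zero => exact h
      | succ l ih => rw [← add_assoc, ← hxs, ih, hp]
    have h2 : x ((m - 1) + j * m) = p := by
      have h3 : j ≤ (m - 1) + j * m := by nlinarith
      obtain ⟨l, hl⟩ := Nat.exists_eq_add_of_le h3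
      rw [hl]
      exact h1 l
    rw [hxper'] at h2
    rw [h2] at hcrit
    exact hfp hcrit
  have hb1 : ∀ j, x j ≠ X.p₁ := hfix X.p₁ X.fix1 hf1
  have hb2 : ∀ j, x j ≠ X.p₂ := hfix X.p₂ X.fix2 hf2
  -- not in E
  have hxE : ∀ j, x j ∉ E := by
    intro j h
    have h1 : ∀ l, it f l (x j) ∈ E := by
      intro l
      induction l with
      | zero => exact h
      | succ l ih =>
        have h2 : it f (l + 1) (x j) = f.eval (it f l (x j)) := by
          unfold it
          rw [Function.iterate_succ_apply']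
        rw [h2]
        exact hE.inv _ ih
    have h3 : s + 1 + j ≤ (s + 1 + j) * m := by nlinarith
    obtain ⟨l, hl⟩ := Nat.exists_eq_add_of_le h3
    have h4 := h1 l
    rw [hx, ← NRC_it_add, add_comm l, ← hl, hitm] at h4
    exact hzE h4
  -- the residues
  let r : ℕ → ℂ := fun j => ∏ l ∈ Finset.range j, (fd f (x l))⁻¹
  have hr0 : r 0 = 1 := by simp [r]
  have hr1 : ∀ j, r (j + 1) = r j / fd f (x j) := by
    intro j
    simp only [r]
    rw [Finset.prod_range_succ, div_eq_mul_inv]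
  have hne : X.p₂ - X.p₁ ≠ 0 := sub_ne_zero.mpr X.ne.symm
  obtain ⟨c₁, c₂, hm0, hm1⟩ : ∃ c₁ c₂ : ℂ, ∑ i ∈ Finset.range (t + 1), r i + c₁ + c₂ = 0 ∧ ∑ i ∈ Finset.range (t + 1), r i * x i + c₁ * X.p₁ + c₂ * X.p₂ = 0 := by
    refine ⟨((∑ i ∈ Finset.range (t + 1), r i * x i) - (∑ i ∈ Finset.range (t + 1), r i) * X.p₂) / (X.p₂ - X.p₁), -((∑ i ∈ Finset.range (t + 1), r i * x i) - (∑ i ∈ Finset.range (t + 1), r i) * X.p₁) / (X.p₂ - X.p₁), ?_, ?_⟩
    · field_simp
      ring
    · field_simp
      ring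
  let G : ℕ ⊕ Bool → ℂ := Sum.elim r (fun l => cond l c₁ c₂)
  let p : ℕ ⊕ Bool → ℂ := Sum.elim x (fun l => cond l X.p₁ X.p₂)
  let S : Finset (ℕ ⊕ Bool) := (Finset.range (t + 1)).disjSum Finset.univ
  have hSsum : ∀ φ : ℕ ⊕ Bool → ℂ, ∑ i ∈ S, φ i = ∑ i ∈ Finset.range (t + 1), φ (Sum.inl i) + (φ (Sum.inr true) + φ (Sum.inr false)) := by
    intro φ
    show ∑ i ∈ (Finset.range (t + 1)).disjSum Finset.univ, φ i = _
    rw [Finset.sum_disjSum, Fintype.sum_bool]
  have hint : Integrable (fun z : ℂ => ∑ i ∈ S, G i / (z - p i)) := by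
    refine hTRC (ℕ ⊕ Bool) S G p ?_ ?_
    · rw [hSsum]
      simp only [G, Sum.elim_inl, Sum.elim_inr, cond_true, cond_false]
      rw [← add_assoc]
      exact hm0
    · rw [hSsum]
      simp only [G, p, Sum.elim_inl, Sum.elim_inr, cond_true, cond_false]
      rw [← add_assoc]
      exact hm1
  obtain ⟨σ, hσ⟩ := hTRE f (ℕ ⊕ Bool) S G p hint
  -- the finset of the poles
  let Q : Finset ℂ := insert X.p₁ (insert X.p₂ ((Finset.range (t + 1)).image x))
  let ro : ℂ → ℂ := fun e => if e = X.p₁ then c₁ else if e = X.p₂ then c₂ else r (Function.invFunOn x (Finset.range (t + 1) : Set ℕ) e)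
  have hro1 : ro X.p₁ = c₁ := if_pos rfl
  have hro2 : ro X.p₂ = c₂ := by
    show (if X.p₂ = X.p₁ then _ else if X.p₂ = X.p₂ then _ else _) = _
    rw [if_neg (Ne.symm X.ne), if_pos rfl]
  have hrob : ∀ i ∈ Finset.range (t + 1), ro (x i) = r i := by
    intro i hi
    show (if x i = X.p₁ then _ else if x i = X.p₂ then _ else _) = _
    rw [if_neg (hb1 i), if_neg (hb2 i), hinj.leftInvOn_invFunOn (Finset.mem_coe.2 hi)]
  have hn2 : X.p₂ ∉ (Finset.range (t + 1)).image x := by
    rw [Finset.mem_image]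
    rintro ⟨i, -, h⟩
    exact hb2 i h
  have hn1 : X.p₁ ∉ insert X.p₂ ((Finset.range (t + 1)).image x) := by
    rw [Finset.mem_insert, not_or, Finset.mem_image]
    refine ⟨X.ne, ?_⟩
    rintro ⟨i, -, h⟩
    exact hb1 i h
  have hsum : ∀ φ : ℂ → ℂ → ℂ, ∑ e ∈ Q, φ (ro e) e = φ c₁ X.p₁ + (φ c₂ X.p₂ + ∑ i ∈ Finset.range (t + 1), φ (r i) (x i)) := by
    intro φ
    show ∑ e ∈ insert X.p₁ (insert X.p₂ ((Finset.range (t + 1)).image x)), φ (ro e) e = _
    rw [Finset.sum_insert hn1, Finset.sum_insert hn2, hro1, hro2, Finset.sum_image hinj]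
    congr 2
    exact Finset.sum_congr rfl fun i hi => by rw [hrob i hi]
  have hq : ∀ z, RS Q ro z = ∑ i ∈ S, G i / (z - p i) := by
    intro z
    unfold RS
    rw [hsum (fun x e => x / (z - e)), hSsum]
    simp only [G, p, Sum.elim_inl, Sum.elim_inr, cond_true, cond_false]
    ring
  have hq' : RS Q ro = (fun z : ℂ => ∑ i ∈ S, G i / (z - p i)) := funext hq
  -- the residues of the error
  let c : ℂ → ℂ := fun e => if e = X.p₁ then c₁ * (1 / fd f X.p₁ - 1) else if e = X.p₂ then c₂ * (1 / fd f X.p₂ - 1) else (σ e - if e = x 0 then 1 else 0)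
  have hc1 : c X.p₁ = c₁ * (1 / fd f X.p₁ - 1) := if_pos rfl
  have hc2 : c X.p₂ = c₂ * (1 / fd f X.p₂ - 1) := by
    show (if X.p₂ = X.p₁ then _ else if X.p₂ = X.p₂ then _ else _) = _
    rw [if_neg (Ne.symm X.ne), if_pos rfl]
  have hcv : ∀ v ∈ SV f, c v = σ v - if v = x 0 then 1 else 0 := by
    intro v hv
    show (if v = X.p₁ then _ else if v = X.p₂ then _ else _) = _
    rw [if_neg (by rintro rfl; exact X.ns1 hv), if_neg (by rintro rfl; exact X.ns2 hv)]
  have hRS : ∀ z, RS (ES f X) c z = c₁ * (1 / fd f X.p₁ - 1) / (z - X.p₁) + (c₂ * (1 / fd f X.p₂ - 1) / (z - X.p₂) + (∑ v ∈ SV f, σ v / (z - v) - 1 / (z - x 0))) := by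
    intro z
    unfold RS ES
    rw [Finset.sum_insert, Finset.sum_insert X.ns2, hc1, hc2]
    · congr 2
      have h1 : ∑ v ∈ SV f, c v / (z - v) = ∑ v ∈ SV f, (σ v / (z - v) - (if v = x 0 then 1 / (z - v) else 0)) := by
        refine Finset.sum_congr rfl fun v hv => ?_
        rw [hcv v hv]
        split_ifs with h
        · rw [sub_div]
        · rw [sub_zero, sub_zero]
      rw [h1, Finset.sum_sub_distrib, Finset.sum_ite_eq' (SV f) (x 0) (fun v => 1 / (z - v)), if_pos hx0]
    · rw [Finset.mem_insert, not_or]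
      exact ⟨X.ne, X.ns1⟩
  have hbad : (↑(SV f) ∪ (x '' (Finset.range (t + 2) : Set ℕ) ∪ {X.p₁, X.p₂}) : Set ℂ).Finite :=
    (SV f).finite_toSet.union (((Finset.range (t + 2)).finite_toSet.image x).union ((finite_singleton _).insert _))
  have heq : ∀ᵐ z : ℂ, TT f (RS Q ro) z - RS Q ro z = RS (ES f X) c z := by
    filter_upwards [hbad.countable.ae_notMem volume] with z hz
    simp only [mem_union, not_or, mem_insert_iff, mem_singleton_iff] at hz
    obtain ⟨hz1, hz2, hz3, hz4⟩ := hz
    have h1 := hσ z (by rw [SPPS.mem_CV]; exact hz1) (by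
      intro i hi
      rcases i with i | l
      · have hi' : i ∈ Finset.range (t + 1) := by
          have := Finset.inl_mem_disjSum.1 hi
          exact this
        intro h
        apply hz2
        refine ⟨i + 1, ?_, ?_⟩
        · rw [Finset.coe_range, mem_Iio]
          rw [Finset.mem_range] at hi'
          omega
        · rw [h]
          exact (hxs i).symm
      · cases l
        · intro h
          exact hz4 (h.trans X.fix2)
        · intro h
          exact hz3 (h.trans X.fix1))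
    rw [← hq', hSsum] at h1
    simp only [G, p, Sum.elim_inl, Sum.elim_inr, cond_true, cond_false] at h1
    rw [X.fix1, X.fix2] at h1
    have h2 : ∑ i ∈ Finset.range (t + 1), r i / fd f (x i) / (z - f.eval (x i)) = ∑ i ∈ Finset.range (t + 1), r i / (z - x i) - 1 / (z - x 0) := by
      rw [Finset.sum_range_succ, ht0, div_zero, zero_div, add_zero, Finset.sum_range_succ' (fun i => r i / (z - x i)) t, hr0, add_sub_cancel_right]
      refine Finset.sum_congr rfl fun i _ => ?_
      rw [hxs i, hr1 i]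
    rw [h2] at h1
    rw [h1, hRS z]
    unfold RS
    rw [hsum (fun x e => x / (z - e))]
    have h3 : z - X.p₁ ≠ 0 := sub_ne_zero.2 hz3
    have h4 : z - X.p₂ ≠ 0 := sub_ne_zero.2 hz4
    ring
  have hfin := hNRQ f X E n μ w hS Q ro c ?_ ?_ heq (x 0) ?_
  · rw [hrob 0 (Finset.mem_range.2 (Nat.succ_pos t)), hr0] at hfin
    exact one_ne_zero hfin
  · intro e he
    simp only [Q, Finset.mem_insert, Finset.mem_image] at he
    rcases he with rfl | rfl | ⟨i, -, rfl⟩
    · exact ⟨hp1, 1, le_rfl, X.fix1⟩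
    · exact ⟨hp2, 1, le_rfl, X.fix2⟩
    · exact ⟨hxE i, m, hm, hxper i⟩
  · refine ⟨?_, ?_⟩
    · rw [hsum (fun x _ => x)]
      rw [← hm0]
      ring
    · rw [hsum (fun x e => x * e)]
      rw [← hm1]
      ring
  · simp only [Q, Finset.mem_insert, Finset.mem_image]
    exact Or.inr (Or.inr ⟨0, Finset.mem_range.2 (Nat.succ_pos t), rfl⟩)

end YW
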