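import Pool.Agent.helper61.CSW.XP.Defs
import Pool.Agent.helper91.CSS.SpecT
import Pool.Agent.helper98.ILF.Defs
import Pool.Agent.helper84.BR.CPF
import Pool.Agent.helper56.EXQ.Spec

/-!
# Project csw: (MP_70a088_an), block W for CLASS S: all cycles are uniformly repelling if there are sufficiently many line fields (helper61)

THEOREM WFG (last row of part 4): `f` of class S; finitely many bounded measurable forms `μ_i` which are invariant up to `(1/π) ∂̄ w_i` (`w_i` a `C¹` vector field with compact support, whose support contains no periodic points outside the exceptional finite set `E` of attracting points), such that the functionals `c ↦ ∫ μ_i RS c` separate the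
spaces of residues `MZ (ES f X)` (structure SPN). Then the cycles outside `E` are uniformly repelling. THEOREM WFS (last row of part 5): the case `E = ∅`, `w_i = 0`: `f` with `N ≥ #S(f)` linearly independent invariant line fields on the Julia set: `WW f`. The abstract main theorem `YXP.XM_stmt` (proved: `YXPA.XM_a`,
Pool/Agent/helper61/CSW/XP/AllX.lean) is a hypothesis of the last row.

RULES. File `Pool/Agent/<seat>/CSW/XX.lean`: `import Pool.Agent.helper61.CSW.W.SpecW`, `set_option autoImplicit false`, the same `open` lines as here, `noncomputable section`, `namespace YW`, `theorem XX (h : YY_stmt) ... : XX_stmt`. Hypotheses may be: statements of this file which stand before yours, all statements of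
Pool/Agent/helper91/CSS/SpecT.lean and of the css: Spec files (proved; you may also import Pool/Agent/helper91/CSS/AllT.lean and use the theorems `CSS.TIN_t, CSS.TRE_t, CSS.TTE_t, CSS.IFC_t, CSS.LGB_t, CSS.RAX_t, ...` directly), the statements `YPPS.XXX_stmt` of Pool/Agent/helper61/CSW/PP/SpecA.lean (proved, `YPPS.SMB_p, MCV_p, NIJ_p, PTN_p, ...` in
Pool/Agent/helper61/CSW/PP/All.lean), and old proved statements that do not mention polynomials. Auxiliary lemmas prefixed `XX_`. No `sorry`, no double quotes in comments. `f.eval z` is `f.f z`, `fd f z` is `deriv f.f z`, `it f m` is `CSS.it f m`, all by `rfl`. Many rows are copies of rows of the exponential family: namespace `EW`, type `EFB.EF`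
there (replace `EFB` by `CSS`, `EF` by `SE`, `EPPS` by `YPPS`, `EW` by `YW`); the old file is named in the docstring. If a statement is false or unusable tell helper61 at once.
-/

set_option autoImplicit false

open Complex Metric Set Filter Topology MeasureTheory
open YPPS (fd fdd pre TT CV IsCyc rho Exact)
open MPS (BB)
open Pool.Agent.helper98.ILF (juliaSet fatouSet)

noncomputable section

open CSS (SE SV JJ)

namespace YW

/-! ## Definitions -/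

/-- the iterates (equal to `CSS.it` by `rfl`). -/
def it (f : SE) (m : ℕ) : ℂ → ℂ := (fun w : ℂ => f.eval w)^[m]

theorem it_eq (f : SE) (m : ℕ) : it f m = CSS.it f m := rfl

/-- the multiplier of `z` for the iterate `k`. -/
def mlt (f : SE) (k : ℕ) (z : ℂ) : ℂ := deriv ((fun w : ℂ => f.eval w)^[k]) z

theorem mlt_eq (f : SE) (k : ℕ) (z : ℂ) : mlt f k z = deriv (it f k) z := rfl

/-- `z` has exact period `k ≥ 1`. -/
def Cyc (f : SE) (k : ℕ) (z : ℂ) : Prop :=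
  0 < k ∧ Function.minimalPeriod (fun w : ℂ => f.eval w) z = k

/-- repelling periodic point of exact period `k`. -/
def Rep (f : SE) (k : ℕ) (z : ℂ) : Prop := Cyc f k z ∧ 1 < ‖mlt f k z‖

/-- the periodic points outside `E` are uniformly repelling. -/
def WG (f : SE) (E : Set ℂ) : Prop := ∃ δ > (0 : ℝ), ∀ (w : ℂ) (m : ℕ), 1 ≤ m → it f m w = w → w ∉ E → 1 + δ ≤ ‖mlt f m w‖

/-- all cycles are uniformly repelling. -/
def WW (f : SE) : Prop := ∃ δ > (0 : ℝ), ∀ (w : ℂ) (m : ℕ), 1 ≤ m → it f m w = w →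
  1 + δ ≤ ‖mlt f m w‖

/-- an exceptional set: finite, forward invariant, all its points are attracting periodic points. -/
structure AE (f : SE) (E : Set ℂ) : Prop where
  fin : E.Finite
  inv : ∀ z ∈ E, f.eval z ∈ E
  att : ∀ z ∈ E, ∃ m ≥ 1, it f m z = z ∧ ‖mlt f m z‖ < 1

/-- two auxiliary fixed points: repelling, not singular values. -/
structure NP (f : SE) where
  p₁ : ℂ
  p₂ : ℂ
  ne : p₁ ≠ p₂
  fix1 : f.eval p₁ = p₁
  fix2 : f.eval p₂ = p₂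
  rep1 : 1 < ‖fd f p₁‖
  rep2 : 1 < ‖fd f p₂‖
  ns1 : p₁ ∉ SV f
  ns2 : p₂ ∉ SV f

open scoped Classical in
/-- the admissible poles of the error. -/
def ES (f : SE) (X : NP f) : Finset ℂ := insert X.p₁ (insert X.p₂ (SV f))

/-- sum of simple poles. -/
def RS (Q : Finset ℂ) (c : ℂ → ℂ) (z : ℂ) : ℂ := ∑ e ∈ Q, c e / (z - e)

/-- two vanishing moments. -/
def MZ (Q : Finset ℂ) (c : ℂ → ℂ) : Prop := ∑ e ∈ Q, c e = 0 ∧ ∑ e ∈ Q, c e * e = 0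

/-- THE FORMS: `μ` bounded measurable, `f^* μ = μ + (1/π) ∂̄ w` with a `C¹` vector field `w` of compact support; the support of `w` contains no periodic points outside `E`; `μ` vanishes near the attracting periodic points outside `E`. (For an invariant line field on the Julia set: `w = 0`, `E = ∅`.) -/
structure FM (f : SE) (E : Set ℂ) (μ w : ℂ → ℂ) : Prop where
  meas : Measurable μ
  bd : ∀ z, ‖μ z‖ ≤ 1
  wc : ContDiff ℝ 1 w
  ws : HasCompactSupport w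
  per : ∀ z ∈ tsupport w, ∀ m : ℕ, 1 ≤ m → it f m z = z → z ∈ E
  inv : ∀ᵐ z : ℂ, μ (f.eval z) * (starRingEnd ℂ) (fd f z) / fd f z = μ z + 1 / (Real.pi : ℂ) * BR.dbar w z
  att : ∀ (z : ℂ) (m : ℕ), 1 ≤ m → it f m z = z → ‖mlt f m z‖ < 1 → z ∉ E → ∃ r > (0 : ℝ), ∀ y ∈ ball z r, μ y = 0

/-- SPANNING FAMILY: the functionals `c ↦ ∫ μ_i RS c` separate the points of `MZ (ES f X)`. -/
structure SPN (f : SE) (X : NP f) (E : Set ℂ) (n : ℕ) (μ w : Fin n → ℂ → ℂ) : Prop where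
  fm : ∀ i, FM f E (μ i) (w i)
  sp : ∀ c : ℂ → ℂ, MZ (ES f X) c → (∀ i, ∫ z : ℂ, μ i z * RS (ES f X) c z = 0) → ∀ e ∈ ES f X, c e = 0

section
variable {k : ℕ} [NeZero k]

/-- the auxiliary simple poles. -/
def rr {f : SE} (X : NP f) (c₁ c₂ : ℂ) (z : ℂ) : ℂ := c₁ / (z - X.p₁) + c₂ / (z - X.p₂)

/-- the differential of a cycle. -/
def qc {f : SE} (X : NP f) (b g : ZMod k → ℂ) (c₁ c₂ : ℂ) (z : ℂ) : ℂ := BB b g z + rr X c₁ c₂ z

/-- the cycle `b` (not one of the fixed points) with exact coefficients, and `c₁, c₂` such that the differential `qc` decays like `z⁻³`. -/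
structure CQ (f : SE) (X : NP f) (b g : ZMod k → ℂ) (c₁ c₂ : ℂ) : Prop where
  cyc : IsCyc f b
  ex : Exact f b g
  np1 : ∀ i, b i ≠ X.p₁
  np2 : ∀ i, b i ≠ X.p₂
  m0 : ∑ i, g i + c₁ + c₂ = 0
  m1 : ∑ i, (1 + g i * b i) + c₁ * X.p₁ + c₂ * X.p₂ = 0

/-- `c` are the residues of `T q - q`. -/
structure RC (f : SE) (X : NP f) (b g : ZMod k → ℂ) (c₁ c₂ : ℂ) (c : ℂ → ℂ) : Prop where
  mz : MZ (ES f X) c
  eq : ∀ᵐ z : ℂ, TT f (qc X b g c₁ c₂) z - qc X b g c₁ c₂ z = RS (ES f X) c z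
  h1 : c X.p₁ = c₁ * (1 / fd f X.p₁ - 1)
  h2 : c X.p₂ = c₂ * (1 / fd f X.p₂ - 1)

/-- the complement of the small discs about the cycle, with radii `ε κ i`. -/
def KE (b : ZMod k → ℂ) (κ : ZMod k → ℝ) (ε : ℝ) : Set ℂ := {z | ∀ i, ε * κ i ≤ ‖z - b i‖}

/-- its preimage. -/
def FKE (f : SE) (b : ZMod k → ℂ) (κ : ZMod k → ℝ) (ε : ℝ) : Set ℂ := {z | f.eval z ∈ KE b κ ε}

end

/-! ## Part 1: the auxiliary fixed points -/

/-- FXG (medium): the logarithmic branches tend to infinity. Uses `CSS.IFC_stmt`, `CSS.RAX_stmt`.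
PROOF. `exp (G W) ∈ pre f (exp W)`. Suppose there are `W_n` in the half plane with `‖W_n‖ → ∞` and `Re (G W_n) ≤ B`. Then `z_n = exp (G W_n)` is bounded (`‖z_n‖ ≤ e^B`), so `f z_n = exp W_n` is bounded: `Re W_n` is bounded, `|Im W_n| → ∞`; pass to a subsequence: `z_n → z*`, `exp W_n → ω = f z*`, `‖ω‖ ≥ exp (log R + 1) > R`.
So `ω` is not a singular value (`RA.sg`), `fd f z* ≠ 0`; `W_n = W*_n + 2πi k_n` with `W*_n` in a compact set, convergent to `W*`, `exp W* = ω`, `|k_n| → ∞` integers. Local inverse `h` of `f` at `z*` on a small disc `D` about `ω` (`D ∩ CV f = ∅`): for `n` large `z_n = h (exp W_n)` (`f` is injective near `z*`). `U` = a small disc about `W*` with `exp U ⊆ D`. The functions `W ↦ exp (G (W + 2πi k_n))` and `W ↦ h (exp W)` are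
two lifts of `exp` on `U` which agree at `W*_n ∈ U`, so on `U` (CSS.LUQ or `YPPS.LUN_stmt`). So `exp (G (W* + 2πi k_n)) = h ω = z*` for all large `n`: contradiction to the injectivity of `exp ∘ G` (`LG.inj`), as the `k_n` are not eventually constant (`|k_n| → ∞`). -/
def FXG_stmt : Prop := ∀ (f : SE) (R : ℝ) (G : ℂ → ℂ), CSS.RA f R → CSS.LG f R G → ∀ B : ℝ, ∃ ρ : ℝ, ∀ W : ℂ, Real.log R + 1 ≤ W.re → ρ ≤ ‖W‖ → B ≤ (G W).re

/-- FX2 (medium): infinitely many repelling fixed points. Uses FXG, `CSS.RAX_stmt`, `CSS.NPL_stmt`, `CSS.LGB_stmt`, `CSS.LGD_stmt`, IFC.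
PROOF. `R` with `RA f R`, a logarithmic branch `G` (LGB at a point with `R < ‖f a‖`, NPL). `A = log R + 80π + 1`: for `Re W ≥ A`: `‖G' W‖ ≤ 4π/(Re W - log R) ≤ 1/20` (LGD). For `m ∈ ℕ` large let `Σ_m = {W | A ≤ Re W ≤ m, |Im W + 2πm| ≤ m}` (compact, convex, nonempty) and `g_m W = G W - 2πi m`.
For `W ∈ Σ_m`: `‖W - A‖ ≤ m + (2π+1) m ≤ 9 m`, so `‖G W‖ ≤ ‖G A‖ + 9m/20 ≤ m` for `m` large (mean value inequality on the half plane); `‖W‖ ≥ (2π-1) m`, so `Re (G W) ≥ A` for `m` large (FXG). So `g_m` maps `Σ_m` into `Σ_m`: `Im g_m + 2πm = Im G`, `Re g_m = Re G ≤ m`. It is a contraction with the constant `1/20`: a fixed point `W_m` (`ContractingWith.exists_fixedPoint'` or similar on the complete set `Σ_m`).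
`z_m = exp (G W_m) = exp (W_m + 2πi m) = exp W_m`, `f z_m = exp W_m = z_m`. Differentiate `f (exp (G W)) = exp W` at `W_m`: `fd f z_m * z_m * G' W_m = z_m`, `‖fd f z_m‖ = 1/‖G' W_m‖ ≥ 20 > 1`. `log ‖z_m‖ = Re (G W_m) → ∞` as `m → ∞` (`‖W_m‖ ≥ (2π-1)m`, FXG): infinitely many points. -/
def FX2_stmt : Prop := ∀ f : SE, {z : ℂ | f.eval z = z ∧ 1 < ‖fd f z‖}.Infinite

/-- NPE (short): the auxiliary points exist. Uses FX2. PROOF. The infinite set minus the finite set `SV f` is infinite: two different points. -/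
def NPE_stmt : Prop := ∀ f : SE, Nonempty (NP f)

/-! ## Part 2: the transfer operator on double poles, duality -/

/-- TD2 (medium/long): DOUBLE POLES. Uses `CSS.TRE_stmt`, `CSS.TRC_stmt`, `YPPS.SMB_stmt`.
PROOF. If `s` is empty all is `0` (`tsum_zero`). For `h ≠ 0` let `B_h x = ∑_i ((A i/h) (1/(x - (p i + h)) - 1/(x - p i)) + G i/(x - p i))`: a sum of simple poles over the index set `s ⊕ s` (or `s ×ˢ univ : Finset (ι × Bool)`), residues `A i/h` at `p i + h` and `G i - A i/h` at `p i`, both moments vanish: integrable (TRC). TRE: with some `σ^h`, for `z ∉ CV f`, `z ≠ f (p i)`, `z ≠ f (p i + h)`: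
`TT f B_h z = ∑_i (1/h) A i (u_i (p i + h) - u_i (p i)) + ∑_i G i/fd f (p i)/(z - f (p i)) + ∑_v σ^h v/(z - v)`, `u_i y = 1/(fd f y * (z - f y))`. As `h → 0` (filter `𝓝[≠] 0`) the first sum tends to `∑_i A i * deriv u_i (p i) = ∑_i A i (1/(z - f (p i))² - fdd f (p i)/fd f (p i)²/(z - f (p i)))`.
LEFT SIDE, `z` fixed in the good set `Z = {z ∉ CV f, z ≠ f (p i) for all i ∈ s}`: the points `y ∈ pre f z` have distance `≥ 2η > 0` from all `p i` (`pre f z` is closed and does not contain `p i`). For `‖h‖ ≤ η`: `‖B_h y‖ ≤ C/‖y - p i₀‖³` for `y ∈ pre f z` with `C` independent of `h`, `y` (combine the terms: `B_h y = ∑_i (A i/((y - p i - h)(y - p i)) + G i/(y - p i))`; for large `y` subtract `(∑ G i)/y + ∑ (A i + G i p i)/y² = 0`: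
`1/(y - p) - 1/y - p/y² = p²/(y² (y - p))`, `1/((y-p-h)(y-p)) - 1/y² = O(1/‖y‖³)`; on a bounded set everything is bounded above and `1/‖y - p i₀‖³` is bounded below). `y ↦ 1/(y - p i₀)³` is holomorphic off one point and integrable near infinity: SMB: `∑_(y ∈ pre f z) ‖1/(y - p i₀)³‖/‖fd f y‖² < ∞`.
Dominated convergence for series (`tendsto_tsum_of_dominated_convergence`), `B_h y → B y`: `TT f B_h z → TT f B z`. So `Φ_h z = ∑_v σ^h v/(z - v)` tends to `L z = TT f B z - (explicit)` for every `z ∈ Z`. The functions `z ↦ ∑_v σ v/(z - v)` form a finite dimensional subspace of the topological vector space `Z → ℂ` (product topology), which is closed (`Submodule.closed_of_finiteDimensional`; e.g. the span of the finite family `v ↦ (fun z => 1/(z - v))`, or the range of a linear map from `SV f → ℂ`), so `L` is in it: `σ`. -/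
def TD2_stmt : Prop := ∀ (f : SE) (ι : Type) (s : Finset ι) (A G p : ι → ℂ), (∀ i ∈ s, fd f (p i) ≠ 0) → ∑ i ∈ s, G i = 0 → ∑ i ∈ s, (A i + G i * p i) = 0 →
  ∃ σ : ℂ → ℂ, ∀ z : ℂ, z ∉ CV f → (∀ i ∈ s, z ≠ f.eval (p i)) →
    TT f (fun x => ∑ i ∈ s, (A i / (x - p i) ^ 2 + G i / (x - p i))) z =
      ∑ i ∈ s, (A i / (z - f.eval (p i)) ^ 2 + (G i / fd f (p i) - A i * fdd f (p i) / fd f (p i) ^ 2) / (z - f.eval (p i))) + ∑ v ∈ SV f, σ v / (z - v)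

/-- TGS (short): existence of exact coefficients. PROOF. Copy of Pool/Agent/helper26/EW/TGE.lean (recursion `g (i+1) = g i/fd f (b i) - fdd f (b i)/fd f (b i)²`: an affine bijective map of `ZMod k → ℂ` as the homogeneous equation has only the solution `0` for `ρ ≠ 1`). -/
def TGS_stmt : Prop := ∀ (k : ℕ) [NeZero k] (f : SE) (b : ZMod k → ℂ), IsCyc f b → rho f b ≠ 1 →
  ∃ g : ZMod k → ℂ, Exact f b g

/-- ECE (very short): PROOF. TGS; the linear system for `c₁, c₂` has the determinant `p₂ - p₁ ≠ 0`. -/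
def ECE_stmt : Prop := ∀ (f : SE) (X : NP f) (k : ℕ) [NeZero k] (b : ZMod k → ℂ), IsCyc f b → (∀ i, b i ≠ X.p₁) → (∀ i, b i ≠ X.p₂) → rho f b ≠ 1 →
  ∃ (g : ZMod k → ℂ) (c₁ c₂ : ℂ), CQ f X b g c₁ c₂

/-- QIN (medium): integrability of `q` (pure facts about the explicit function `q = qc X b g c₁ c₂`).
PROOF. `q = ∑_i (1/(z - b i)² + g i/(z - b i)) + c₁/(z - p₁) + c₂/(z - p₂)`, `‖q z‖ ≤ C/‖z‖³` for `‖z‖ ≥ R` (subtract `(m0)/z + (m1)/z² = 0`, see TD2). It is holomorphic off the finite set `range b ∪ {p₁, p₂}`, simple poles at `p₁, p₂` (`b i ≠ p_l`). So it is integrable on every set `{z | δ ≤ ‖z - b i‖ for all i}` (`δ > 0`): bounded by `C/(1+‖z‖)³ + ‖c₁‖/‖z - p₁‖ + ‖c₂‖/‖z - p₂‖` there on a ball, and by `C/‖z‖³` outside.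
(`CSS.TRC_stmt` or `CWPB.DCY` may help: `q - ∑_i (1/(z-b i)² + g i/(z - b i) - h_i)`..; or `integrable_one_add_norm`, local integrability of `1/‖z - a‖`: `MPS.MI_stmt`.) `FKE`: `b i ∉ FKE` has a neighbourhood outside `FKE` because `f (b i) = b (i+1)` and `f` is continuous. `DC` (definition in PP/Defs.lean) and `YXPS.AD`: `f (b i) = b (i+1)`, `f p_l = p_l`. -/
def QIN_stmt : Prop := ∀ (f : SE) (X : NP f) (k : ℕ) [NeZero k] (b g : ZMod k → ℂ) (c₁ c₂ : ℂ), CQ f X b g c₁ c₂ →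
  (∀ δ > (0 : ℝ), IntegrableOn (qc X b g c₁ c₂) {z | ∀ i, δ ≤ ‖z - b i‖}) ∧ YXPS.AD f (Set.range b ∪ {X.p₁, X.p₂}) (qc X b g c₁ c₂) ∧
  ∀ κ : ZMod k → ℝ, (∀ i, 0 < κ i) → ∀ ε > (0 : ℝ), MeasurableSet (KE b κ ε) ∧ MeasurableSet (FKE f b κ ε) ∧ IntegrableOn (qc X b g c₁ c₂) (KE b κ ε) ∧ IntegrableOn (qc X b g c₁ c₂) (FKE f b κ ε)

/-- ERC (medium): the error. Uses TD2, QIN, `CSS.TIN_stmt`, `CSS.TRM_stmt`.
PROOF. TD2 with the index set `univ : Finset (ZMod k ⊕ Bool)` (`A = 1, G = g i, p = b i` on the left, `A = 0, G = c_l, p = p_l` on the right; `fd f p_l ≠ 0` by `rep`): for `z` outside a finite set (so for a.e. `z`) `TT f q z = ∑_i (1/(z - b (i+1))² + g (i+1)/(z - b (i+1))) + ∑_l c_l/fd f p_l/(z - p_l) + ∑_v σ v/(z - v)` (`Exact`), reindex `i ↦ i + 1`: `TT f q z - q z = RS (ES f X) c z`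
with `c p_l = c_l (1/fd f p_l - 1)`, `c v = σ v` on `SV f` (`p_l ∉ SV f`, `p₁ ≠ p₂`). MOMENTS: `κ = 1`, `ε = 1`, `B = q` on `FKE`, `0` elsewhere: integrable (QIN); `TT f B z = TT f q z` for `z ∈ KE` and `= 0` for `z ∉ KE` (all `y ∈ pre f z` are in `FKE` or all are not). TIN: `TT f B` is integrable, so `TT f q` is integrable on `KE`, so is `RS c = TT f q - q`.
The complement of `KE` is bounded and `RS c` is locally integrable: `RS c` is integrable: TRM: `MZ`. -/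
def ERC_stmt : Prop := ∀ (f : SE) (X : NP f) (k : ℕ) [NeZero k] (b g : ZMod k → ℂ) (c₁ c₂ : ℂ), CQ f X b g c₁ c₂ → ∃ c : ℂ → ℂ, RC f X b g c₁ c₂ c

/-- DBW (short/medium): integration by parts (pure).
PROOF. `F = w B` on `U`, `0` elsewhere is `C¹` (on `U` a product, off `tsupport w` it is `0`; these two open sets cover the plane; a holomorphic function is `C¹`: `DifferentiableOn.contDiffOn` and restriction of scalars) with compact support, `dbar F = dbar w * B` (`dbar B = 0`). `∫ dbar F = 0`: e.g. `BR.CPF` at two points or `integral_fderiv_eq_zero`-type lemma (Fubini), see `EXQ.VWK` (Pool/Agent/helper48/EXQ/VWK.lean), which contains `∫ dbar φ = 0`. -/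
def DBW_stmt : Prop := ∀ (w B : ℂ → ℂ) (U : Set ℂ), ContDiff ℝ 1 w → HasCompactSupport w → IsOpen U → tsupport w ⊆ U → DifferentiableOn ℂ B U →
  Integrable (fun z : ℂ => BR.dbar w z * B z) ∧ ∫ z : ℂ, BR.dbar w z * B z = 0

/-- GDU (very short): duality. Uses `CSS.TIN_stmt`. PROOF. TIN with `g = μ`, `FM.inv`; `1/π ∂̄ w B` is integrable (`∂̄ w` is bounded with compact support and continuous). -/
def GDU_stmt : Prop := ∀ (f : SE) (E : Set ℂ) (μ w B : ℂ → ℂ), FM f E μ w → Integrable B →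
  ∫ z : ℂ, μ z * TT f B z = (∫ z : ℂ, μ z * B z) + 1 / (Real.pi : ℂ) * ∫ z : ℂ, BR.dbar w z * B z

/-! ## Part 3: the inequality and the energy -/

/-- KAP (short, done: Pool/Agent/helper61/CSW/W/KAP.lean): radii. -/
def KAP_stmt : Prop := ∀ (k : ℕ) [NeZero k] (a : ZMod k → ℝ), (∀ i, 0 < a i) →
  ∃ κ : ZMod k → ℝ, (∀ i, 0 < κ i) ∧
    ∑ i, |Real.log (κ (i + 1) / (a i * κ i))| = |Real.log (∏ i, a i)|

/-- RNA (medium): the ring estimate at one point (pure, `F` holomorphic near `b`).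
PROOF. `a = ‖deriv F b‖`. Given `τ`: `η ∈ (0, 1/2)` with `2π log ((1+η)/(1-η)) ≤ τ/3`, `r ≤ r₀` with `(1-η) a ‖z - b‖ ≤ ‖F z - F b‖ ≤ (1+η) a ‖z - b‖` on `ball b r`. Let `s = ε κ`, `s' = ε κ'/a`. On `ball b r`: `‖F z - F b‖ ≥ ε κ'` implies `‖z - b‖ ≥ s'/(1+η)`, and `‖z - b‖ ≥ s'/(1-η)` implies `‖F z - F b‖ ≥ ε κ'`.
So the symmetric difference is contained in the ring `min(s, s'/(1+η)) ≤ ‖z-b‖ ≤ max(s, s'/(1-η))`, and for a ring `α ≤ ‖z - b‖ ≤ β`: `∫ ‖q‖ ≤ ∫ (1/‖z-b‖² + M/‖z-b‖) ≤ 2π log(β/α) + 2π M β` (polar coordinates; `MPS.MD_ann`, helper74/MP/MD.lean, or the lemmas in helper20/EW/ENQE.lean, helper92/EW/INS.lean). `β/α ≤ max(s/s', s'/s) (1+η)/(1-η)`, `β → 0` with `ε`.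
Signed version: the set `A' \ A` (`A = {‖z - b‖ ≥ s}`, `A' = {‖F z - F b‖ ≥ ε κ'}`) is in the ring `s'/(1+η) ≤ ‖z - b‖ < s` (empty if `s ≤ s'/(1+η)`), and `A \ A'` contains the ring `s ≤ ‖z - b‖ < s'/(1+η)`, on which `∫ ‖q‖ ≥ 2π log (s'/((1+η) s)) - 2π M s'` (if `s < s'/(1+η)`). In both cases the difference is `≤ 2π log (s (1+η)/s') + o(1)`. -/
def RNA_stmt : Prop := ∀ (F q : ℂ → ℂ) (b : ℂ) (r₀ M : ℝ), 0 < r₀ → 0 ≤ M → DifferentiableOn ℂ F (ball b r₀) → deriv F b ≠ 0 → Measurable q → (∀ z : ℂ, z ≠ b → ‖z - b‖ < r₀ → ‖q z - 1 / (z - b) ^ 2‖ ≤ M / ‖z - b‖) →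
  ∀ κ κ' τ : ℝ, 0 < κ → 0 < κ' → 0 < τ → ∃ r > (0 : ℝ), r ≤ r₀ ∧ ∃ ε₀ > (0 : ℝ), ∀ ε : ℝ, 0 < ε → ε < ε₀ →
    (∫ z in {z : ℂ | ‖z - b‖ < r ∧ ¬ (ε * κ ≤ ‖z - b‖ ↔ ε * κ' ≤ ‖F z - F b‖)}, ‖q z‖) ≤ 2 * Real.pi * |Real.log (κ' / (‖deriv F b‖ * κ))| + τ ∧
    IntegrableOn q {z : ℂ | ‖z - b‖ < r ∧ (ε * κ ≤ ‖z - b‖ ∨ ε * κ' ≤ ‖F z - F b‖)} ∧
    (∫ z in {z : ℂ | ‖z - b‖ < r ∧ ε * κ' ≤ ‖F z - F b‖}, ‖q z‖) - (∫ z in {z : ℂ | ‖z - b‖ < r ∧ ε * κ ≤ ‖z - b‖}, ‖q z‖) ≤ 2 * Real.pi * Real.log (‖deriv F b‖ * κ / κ') + τ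

/-- LIM (medium/long): the limit of the difference of the integrals over `f⁻¹ K_ε` and `K_ε`. Uses RNA, QIN.
PROOF. `q = qc X b g c₁ c₂`; at `b i`: `q z - 1/(z - b i)² = g i/(z - b i) + holomorphic`. `a i = ‖fd f (b i)‖`. RNA at `b i` with `F = f`, `κ = κ i`, `κ' = κ (i+1)`, `τ' = τ/(4k)`; let `r` be the minimum of the radii `r_i` (RNA holds for every smaller `r` too: the part `r ≤ ‖z - b i‖ < r_i` is contained in neither of the sets `‖z - b‖ < εκ`, `‖F z - F b‖ < εκ'` for small `ε` — `F z ≠ F b` on the compact ring if `r_i` is small; or simply apply everything with the different radii `r_i`),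
so small that the discs `ball (b i) r_i` are disjoint and, for small `ε`, in `ball (b i) r_i` the condition `f z ∈ K_ε` is equivalent to `ε κ (i+1) ≤ ‖f z - b (i+1)‖` and `z ∈ K_ε` to `ε κ i ≤ ‖z - b i‖` (the other points of the cycle are far). FAR PART: on `O = {z | r_i ≤ ‖z - b i‖ for all i}` `q` is integrable (QIN), `O ⊆ K_ε` for small `ε`, and
`∫_(O \ f⁻¹ K_ε) ‖q‖ → 0`: the sets decrease (as `ε ↓ 0`) to `O ∩ {z | f z ∈ range b}`, a countable set (`SPPS.CRC_stmt` or: zeros of `f - b i`), dominated convergence. (a): `∫_(f⁻¹K) φ q - ∫_K φ q` is bounded by the far part plus the sum over `i` of the integrals of `‖q‖` over the symmetric differences in `ball (b i) r_i`: RNA, first claim; if `φ = 0` on `ball (b i) ρ` for all `i`, these integrals are zero for small `ε`: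
(choose `r_i ≤ ρ`). (b) far part: `∫_(O ∩ f⁻¹K) ‖q‖ - ∫_(O ∩ K) ‖q‖ ≤ 0`; near part: RNA, third claim; `∑_i log (a i κ i/κ (i+1)) = log ‖ρ‖` (the `κ` cancel). -/
def LIM_stmt : Prop := ∀ (f : SE) (X : NP f) (k : ℕ) [NeZero k] (b g : ZMod k → ℂ) (c₁ c₂ : ℂ), CQ f X b g c₁ c₂ → ∀ κ : ZMod k → ℝ, (∀ i, 0 < κ i) → ∀ τ > (0 : ℝ),
  (∀ φ : ℂ → ℂ, Measurable φ → (∀ z, ‖φ z‖ ≤ 1) → ∃ ε₀ > (0 : ℝ), ∀ ε : ℝ, 0 < ε → ε < ε₀ →
    ‖(∫ z in FKE f b κ ε, φ z * qc X b g c₁ c₂ z) - ∫ z in KE b κ ε, φ z * qc X b g c₁ c₂ z‖ ≤ 2 * Real.pi * ∑ i, |Real.log (κ (i + 1) / (‖fd f (b i)‖ * κ i))| + τ ∧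
    ((∀ i, ∃ r > (0 : ℝ), ∀ z ∈ ball (b i) r, φ z = 0) → ‖(∫ z in FKE f b κ ε, φ z * qc X b g c₁ c₂ z) - ∫ z in KE b κ ε, φ z * qc X b g c₁ c₂ z‖ ≤ τ)) ∧
  ∃ ε₀ > (0 : ℝ), ∀ ε : ℝ, 0 < ε → ε < ε₀ → (∫ z in FKE f b κ ε, ‖qc X b g c₁ c₂ z‖) - (∫ z in KE b κ ε, ‖qc X b g c₁ c₂ z‖) ≤ 2 * Real.pi * Real.log ‖rho f b‖ + τ

/-- INE (medium): THE INEQUALITY. Uses LIM, KAP, QIN, GDU, DBW, `CSS.TRC_stmt`.
PROOF. `q = qc ..`, `κ` from KAP with `a i = ‖fd f (b i)‖` (`∏ a i = ‖ρ‖`). For `ε > 0`: `B = q` on `FKE`, `0` elsewhere, is integrable (QIN), `TT f B z = TT f q z` on `KE`, `0` elsewhere. GDU: `∫_KE μ TT f q = ∫_FKE μ q + (1/π) ∫_FKE ∂̄w q`. So `∫_KE μ RS c = ∫_KE μ (TT f q - q) = (∫_FKE μ q - ∫_KE μ q) + (1/π) ∫_FKE ∂̄w q`.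
`ε → 0`: the left side tends to `∫ μ RS c` (RS c is integrable: TRC; `KE` increases to the complement of a finite set). `∂̄w q` is integrable with integral `0` (DBW: the points `b i`, `p_l` are periodic and not in `E`, so not in `tsupport w`: `q` is holomorphic on the open set `(range b ∪ {p₁,p₂})ᶜ ⊇ tsupport w`), and `∫_FKE ∂̄w q → ∫ ∂̄w q = 0` (`FKE` increases to the complement of the null set `f⁻¹ (range b)`).
LIM (a) with `φ = μ`: the bound `2π |log ‖ρ‖| + τ` for all `τ`; second claim the same with `τ`. -/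
def INE_stmt : Prop := ∀ (f : SE) (X : NP f) (E : Set ℂ) (μ w : ℂ → ℂ), FM f E μ w → X.p₁ ∉ E → X.p₂ ∉ E → ∀ (k : ℕ) [NeZero k] (b g : ZMod k → ℂ) (c₁ c₂ : ℂ) (c : ℂ → ℂ),
  CQ f X b g c₁ c₂ → RC f X b g c₁ c₂ c → (∀ i, b i ∉ E) →
  ‖∫ z : ℂ, μ z * RS (ES f X) c z‖ ≤ 2 * Real.pi * |Real.log ‖rho f b‖| ∧
  ((∀ i, ∃ r > (0 : ℝ), ∀ z ∈ ball (b i) r, μ z = 0) → ∫ z : ℂ, μ z * RS (ES f X) c z = 0)

/-- ENS (medium): THE ENERGY. Uses LIM, QIN, `YPPS.MCV_stmt`, `YPPS.SMB_stmt`, `YXPS.MIX_stmt` or `YPPS.MS_stmt` (measurability), `CSS.TRC_stmt`.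
PROOF. `q = qc ..`, `κ = 1`, `I = ∫ ‖RS c‖`. `S z = ∑_(y ∈ pre f z) ‖q y‖/‖fd f y‖²` (converges: SMB, `AD.dec`), `Df = S - ‖TT f q‖ ≥ 0` (`norm_tsum_le_tsum_norm`). MCV: `∫_KE S = ∫_FKE ‖q‖` (finite by QIN; critical points `y`: `‖q y‖/0 = 0` on both sides up to null sets). `‖TT f q‖ ≥ ‖q‖ - ‖RS c‖` a.e. So
`∫_KE Df = ∫_FKE ‖q‖ - ∫_KE ‖TT f q‖ ≤ (∫_FKE ‖q‖ - ∫_KE ‖q‖) + ∫_KE ‖RS c‖ ≤ 2π log ‖ρ‖ + τ + I` (LIM, last claim) for small `ε`. `KE` increases to the complement of a finite set as `ε ↓ 0` (take `ε = 1/(n+1)`; monotone convergence `lintegral_iUnion_of_directed` or `setLIntegral` of a monotone union): `∫⁻ ofReal Df ≤ ofReal (2π log ‖ρ‖ + I)` and `0 ≤ 2π log ‖ρ‖ + I`. `er = -RS c` a.e.: `∫⁻ ofReal (2 ‖er‖) = ofReal (2 I)`.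
Second part: `Eng` with AD from QIN, `E₀` any number `≥ 2π log ‖ρ‖ + 3 I`, `0 ≤ E₀`. Compare Pool/Agent/helper20/EW/ENQE.lean (copy its measure theory). -/
def ENS_stmt : Prop := ∀ (f : SE) (X : NP f) (k : ℕ) [NeZero k] (b g : ZMod k → ℂ) (c₁ c₂ : ℂ) (c : ℂ → ℂ), CQ f X b g c₁ c₂ → RC f X b g c₁ c₂ c →
  0 ≤ 2 * Real.pi * Real.log ‖rho f b‖ + (∫ z : ℂ, ‖RS (ES f X) c z‖) ∧
  (∫⁻ z : ℂ, ENNReal.ofReal (YXPS.Df f (qc X b g c₁ c₂) z + 2 * ‖YXPS.er f (qc X b g c₁ c₂) z‖)) ≤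
    ENNReal.ofReal (2 * Real.pi * Real.log ‖rho f b‖ + 3 * ∫ z : ℂ, ‖RS (ES f X) c z‖) ∧
  ∀ E₀ rad : ℝ, 0 ≤ E₀ → 2 * Real.pi * Real.log ‖rho f b‖ + 3 * (∫ z : ℂ, ‖RS (ES f X) c z‖) ≤ E₀ →
    YXP.Eng f.natDegree f (Set.range b ∪ {X.p₁, X.p₂}) (qc X b g c₁ c₂) rad E₀

/-- NRPA (medium): equality in the triangle inequality makes the quotient constant (`q` holomorphic off a finite set). Uses `YPPS.SMB_stmt`, `YPPS.MCV_stmt` (null sets), `SPPS.CRC_stmt`.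
PROOF. Suppose `q` is not zero a.e.; on the connected open set `Pᶜ` its zeros form a relatively closed discrete set (identity theorem), so a countable set `N₀`. `κ y = q (f y) (fd f y)²/q y` is holomorphic on `D = {y | y ∉ P, q y ≠ 0, f y ∉ P}`, an open set whose complement is countable (`P`, `N₀`, `f⁻¹ P`), so `D` is connected (`Set.Countable.isPathConnected_compl_of_one_lt_rank`, `Complex.rank_real_complex`).
For a.e. `y` (preimages of null sets are null, MCV with `F = ` indicator or ENU, `{fd f = 0}` is countable) the point `z = f y` satisfies: `TT f q z = q z`, `∑_(y' ∈ pre f z) ‖q y'‖/‖fd f y'‖² = ‖TT f q z‖` (`Df = 0`), so `‖∑ a_(y')‖ = ∑ ‖a_(y')‖`, `a_(y') = q y'/(fd f y')²`, and this forces `a_(y') = t S`, `t ≥ 0` real, `S = ∑ a = q z` (if `S ≠ 0`: `∑ (‖a‖ ‖S‖ - Re (a conj S)) = 0` with nonnegative terms; if `S = 0` all `a` are `0`, but `q y ≠ 0`).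
So for a.e. `y ∈ D`: `κ y = q z/a_y` is real and positive (`a_y ≠ 0`). By continuity `κ` is real on `D`, so it is constant (open mapping / Cauchy-Riemann: `deriv = 0`), `κ y = κ₀ > 0`. -/
def NRPA_stmt : Prop := ∀ (f : SE) (P : Set ℂ) (q : ℂ → ℂ), P.Finite → DifferentiableOn ℂ q Pᶜ → YPPS.DC q → (∀ᵐ z : ℂ, TT f q z = q z) → (∀ᵐ z : ℂ, YXPS.Df f q z = 0) → (¬ ∀ᵐ z : ℂ, q z = 0) →
  ∃ κ₀ : ℝ, 0 < κ₀ ∧ {y : ℂ | ¬ (q (f.eval y) * fd f y ^ 2 = κ₀ * q y)}.Countable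

/-- NRP (short/medium): NO PERIODIC DIFFERENTIAL. Uses NRPA, `YPPS.SMB_stmt`, `CSS.RAX_stmt`, `CSS.LGB_stmt`, `CSS.NPL_stmt`.
PROOF. Otherwise `κ₀` from NRPA with a countable exceptional set `N`. Choose `z` with `‖z‖ > R` (`RA f R`), `z ∉ f '' N`, `q z ≠ 0`, `z ∉ CV f` (all but countably many points of an open set, and `q ≠ 0` on a set of positive measure of large points: `q` is holomorphic near infinity and not identically zero). For all `y ∈ pre f z`: `‖q y‖/‖fd f y‖² = ‖q z‖/κ₀ > 0`. `pre f z` is infinite: `exp (G (W + 2πi n))`, `exp W = z`, are pairwise different preimages (`LG.inj`, LGB).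
The family of SMB would be a summable constant nonzero family on an infinite type: contradiction (`summable_const_iff`). -/
def NRP_stmt : Prop := ∀ (f : SE) (P : Set ℂ) (q : ℂ → ℂ), P.Finite → DifferentiableOn ℂ q Pᶜ → YPPS.DC q → (∀ᵐ z : ℂ, TT f q z = q z) → (∀ᵐ z : ℂ, YXPS.Df f q z = 0) → ∀ᵐ z : ℂ, q z = 0

/-- RSZ (short): a sum of simple poles which vanishes a.e. has zero coefficients; also for `qc` (double poles). PROOF. It vanishes on a dense set, so at all points where it is continuous; multiply by `(z - e)` (respectively `(z - b 0)²`) and let `z → e` (`z → b 0`): the limit is `c e` (respectively `1`). -/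
def RSZ_stmt : Prop := (∀ (Q : Finset ℂ) (c : ℂ → ℂ), (∀ᵐ z : ℂ, RS Q c z = 0) → ∀ e ∈ Q, c e = 0) ∧
  ∀ (f : SE) (X : NP f) (k : ℕ) [NeZero k] (b g : ZMod k → ℂ) (c₁ c₂ : ℂ), CQ f X b g c₁ c₂ → ¬ ∀ᵐ z : ℂ, qc X b g c₁ c₂ z = 0

/-- NRQ (medium): integrable differentials with simple poles at periodic points. Uses GDU, DBW, NRP, RSZ, `CSS.TIN_stmt`, `CSS.TRM_stmt`, `CSS.TRC_stmt`, `YPPS.MCV_stmt`, `YPPS.SMB_stmt`.
PROOF. `q = RS Q r` is integrable (TRC), holomorphic off `Q`; `TT f q` is integrable (TIN), so `RS (ES f X) c` is integrable and `MZ (ES f X) c` (TRM). GDU: `∫ μ_i RS c = ∫ μ_i (TT f q - q) = (1/π) ∫ ∂̄ w_i q = 0` (DBW: the points of `Q` are not in `tsupport w_i` by `FM.per`). `SPN.sp`: `c = 0` on `ES`, so `TT f q = q` a.e. `Df ≥ 0` and `∫ Df = ∫ ‖q‖ - ∫ ‖TT f q‖ = 0` (MCV with `K = univ`): `Df = 0` a.e.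
NRP: `q = 0` a.e., RSZ. -/
def NRQ_stmt : Prop := ∀ (f : SE) (X : NP f) (E : Set ℂ) (n : ℕ) (μ w : Fin n → ℂ → ℂ), SPN f X E n μ w → ∀ (Q : Finset ℂ) (r c : ℂ → ℂ), (∀ e ∈ Q, e ∉ E ∧ ∃ m : ℕ, 1 ≤ m ∧ it f m e = e) → MZ Q r →
  (∀ᵐ z : ℂ, TT f (RS Q r) z - RS Q r z = RS (ES f X) c z) → ∀ e ∈ Q, r e = 0

/-- ZCS (short): periodic points and cycles. PROOF. Copy of Pool/Agent/helper40/EW/ZCE.lean; `fd f ≠ 0` along the orbit because the product `mlt f k z ≠ 0` (chain rule, `CSS.IFC_stmt`). -/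
def ZCS_stmt : Prop := ∀ (f : SE) (k : ℕ) [NeZero k] (z : ℂ), Cyc f k z → mlt f k z ≠ 0 →
  ∃ b : ZMod k → ℂ, IsCyc f b ∧ b 0 = z ∧
    (∀ j : ℕ, b (j : ZMod k) = (fun w : ℂ => f.eval w)^[j] z) ∧ rho f b = mlt f k z

/-- NR1 (medium): no cycle of multiplier `1` outside `E`. Uses NRQ, `CSS.TRE_stmt`.
PROOF. `r 0 = 1`, `r (i+1) = r i/fd f (b i)` (closes up: `∏ fd f (b i) = 1`). `c₁, c₂` with `∑ r + c₁ + c₂ = 0`, `∑ r i b i + c₁ p₁ + c₂ p₂ = 0`. `q = ∑ r i/(z - b i) + c₁/(z - p₁) + c₂/(z - p₂)`, integrable. TRE: `TT f q = ∑ (r i/fd f (b i))/(z - b (i+1)) + ∑ c_l/fd f p_l/(z - p_l) + ∑ σ_v/(z - v)`, so `TT f q - q = RS (ES f X) c` a.e. NRQ with `Q = range b ∪ {p₁, p₂}` (write `q = RS Q r'`; `b` injective, `b i ≠ p_l`): `r' (b 0) = 1 = 0`. -/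
def NR1_stmt : Prop := ∀ (f : SE) (X : NP f) (E : Set ℂ) (n : ℕ) (μ w : Fin n → ℂ → ℂ), SPN f X E n μ w → X.p₁ ∉ E → X.p₂ ∉ E → ∀ (k : ℕ) [NeZero k] (b : ZMod k → ℂ), IsCyc f b → (∀ i, b i ∉ E) → (∀ i, b i ≠ X.p₁) → (∀ i, b i ≠ X.p₂) → rho f b ≠ 1

/-- NR0 (medium): no superattracting cycle outside `E`. Uses NRQ, `CSS.TRE_stmt`, `CSS.IFC_stmt`.
PROOF. `z_j = f^j z`, `z_k = z`, `∏_(j<k) fd f z_j = 0`; rotate: there is `s` with `fd f z_s = 0`; `x_j = z_(s+1+j)`, `x_0 = f z_s ∈ SV f`; `t ≥ 0` minimal with `fd f x_t = 0` (`t ≤ k - 1`; the points `x_0, .., x_t` are pairwise different if `k` is the minimal period; take `k` minimal), `f x_t ∈ SV f`. `r_0 = 1`, `r_(j+1) = r_j/fd f x_j` for `j < t`. `c₁, c₂` as in NR1, `q = ∑_(j≤t) r_j/(z - x_j) + ∑ c_l/(z - p_l)`.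
TRE: `TT f q = ∑_(j<t) r_(j+1)/(z - x_(j+1)) + (r_t/0 = 0) + ∑ c_l/fd f p_l/(z - p_l) + ∑ σ_v/(z - v)`; `TT f q - q = -1/(z - x_0) + (poles at p_l and SV)`, and `x_0 ∈ SV f`: `= RS (ES f X) c`. NRQ: `r_0 = 1 = 0`. (`x_j ≠ p_l`: a superattracting cycle does not contain a repelling fixed point.) -/
def NR0_stmt : Prop := ∀ (f : SE) (X : NP f) (E : Set ℂ) (n : ℕ) (μ w : Fin n → ℂ → ℂ), SPN f X E n μ w → AE f E → ∀ (z : ℂ) (m : ℕ), 1 ≤ m → it f m z = z → z ∉ E → mlt f m z ≠ 0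

/-- NRC (medium): ALL CYCLES OUTSIDE `E` ARE REPELLING. Uses NR0, NR1, ZCS, ECE, ERC, INE, ENS, NRP, RSZ.
PROOF. `p_l ∉ E` (`AE.att`: `f p = p`, `‖fd f p‖ > 1`, `mlt f m p = (fd f p)^m`). `k` = minimal period of `z`, `m = k l`, `mlt f m z = (mlt f k z)^l ≠ 0` (NR0); ZCS: `b`; `b i ∉ E` (`AE.inv`: the forward orbit of a point of `E` stays in `E`). If `k = 1` and `z = p_l` then `‖ρ‖ > 1`; otherwise `b i ≠ p_l`. Suppose `‖ρ‖ ≤ 1`. NR1: `ρ ≠ 1`. ECE, ERC: `q`, `c`. INE for `μ_i`: if `‖ρ‖ < 1` then `μ_i = 0` near all `b j`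
(`FM.att` with `m = k`, `mlt f k (b j) = ρ`), so `∫ μ_i RS c = 0`; if `‖ρ‖ = 1` the bound is `0`. `SPN.sp`: `c = 0` on `ES`, `RS c = 0`. ENS: `0 ≤ 2π log ‖ρ‖`: so `‖ρ‖ = 1`, and `∫⁻ (Df + 2‖er‖) ≤ 0`: `Df = 0` and `TT f q = q` a.e. (`Df ≥ 0`). NRP: `q = 0` a.e.: RSZ. -/
def NRC_stmt : Prop := ∀ (f : SE) (X : NP f) (E : Set ℂ) (n : ℕ) (μ w : Fin n → ℂ → ℂ), SPN f X E n μ w → AE f E → ∀ (z : ℂ) (m : ℕ), 1 ≤ m → it f m z = z → z ∉ E → 1 < ‖mlt f m z‖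

/-- SBS (medium): linear algebra. Uses `CSS.TRC_stmt`.
PROOF. For `c` with `MZ (ES f X) c`: `RS c = ∑_(v ∈ SV f) c v k_v` (off a finite set), `k_v z = 1/(z - v) - ((v - p₂)/(p₁ - p₂))/(z - p₁) - ((v - p₁)/(p₂ - p₁))/(z - p₂)` (the moments determine `c p₁, c p₂`), integrable (TRC). So `L_i c = ∑_v c v ∫ μ_i k_v`. The linear map `ℂ^(SV f) → ℂ^n` is injective (`SPN.sp`; every vector on `SV f` extends to `c` with `MZ`), so `‖c|SV‖ ≤ K max_i ‖L_i c‖`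
(finite dimension: `LinearMap.exists_antilipschitzWith`), `‖c p_l‖ ≤ K' ∑ ‖c v‖`, `∫ ‖RS c‖ ≤ ∑ ‖c v‖ ∫ ‖k_v‖`. -/
def SBS_stmt : Prop := ∀ (f : SE) (X : NP f) (E : Set ℂ) (n : ℕ) (μ w : Fin n → ℂ → ℂ), SPN f X E n μ w → ∃ C > (0 : ℝ), ∀ (c : ℂ → ℂ) (M : ℝ), MZ (ES f X) c → 0 ≤ M →
  (∀ i, ‖∫ z : ℂ, μ i z * RS (ES f X) c z‖ ≤ M) → (∫ z : ℂ, ‖RS (ES f X) c z‖) ≤ C * M ∧ ∀ e ∈ ES f X, ‖c e‖ ≤ C * M

/-! ## Part 4: invisibility of the auxiliary points, selection -/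

/-- DLS (short): copy of Pool/Agent/helper14/EW/DLE.lean. -/
def DLS_stmt : Prop := ∀ (f : SE) (k : ℕ) (z : ℂ), Rep f k z →
  (∃ κ > (0 : ℝ), ∀ m : ℕ, κ ≤ ‖deriv (it f m) z‖) ∧ Tendsto (fun m => ‖deriv (it f m) z‖) atTop atTop

/-- SMS (short/medium): copy of Pool/Agent/helper30/EW/SME.lean. Uses DLS. -/
def SMS_stmt : Prop := ∀ (f : SE) (s a : ℝ), 0 < s →
  (∃ t₀ > (0 : ℝ), ∀ (m k : ℕ) (p q : ℂ) (t : ℝ), Rep f k p → ‖p‖ ≤ a →
    (∀ z, ‖z - p‖ < s → ‖it f m z - q‖ ≤ t) → t₀ ≤ t) ∧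
  ∀ M : ℝ, ∃ K₀ : ℕ, ∀ (m k : ℕ) (p q : ℂ) (t : ℝ), K₀ ≤ m → Rep f k p → ‖p‖ ≤ a →
    (∀ z, ‖z - p‖ < s → ‖it f m z - q‖ ≤ t) → M ≤ t

/-- LNS (medium): linearisation; copy of `EW.LNE` (Pool/Agent/helper61/CSW/W/LNE.lean is the scripted copy, probably it compiles after renaming `LNE_stmt` to `LNS_stmt`; only local facts). -/
def LNS_stmt : Prop := ∀ (f : SE) (k' : ℕ) (b' : ℂ), Rep f k' b' →
  ∃ d > (0 : ℝ), ∃ r > (0 : ℝ), ∃ C > (0 : ℝ), ∀ p : ℂ, p ≠ b' → ‖p - b'‖ < d →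
    ∃ (N : ℕ) (H : ℂ → ℂ), H (it f (N * k') p) = p ∧ ‖it f (N * k') p - b'‖ < 2 * d ∧
      (∀ y, ‖y - it f (N * k') p‖ < r → it f (N * k') (H y) = y ∧
        ‖H y - p‖ ≤ C * ‖p - b'‖ * ‖y - it f (N * k') p‖) ∧
      ∀ K : ℕ, 0 < K → it f K p = p → N * k' ≤ K

/-- IVR (short/medium): copy of `EW.IVE` (Pool/Agent/helper61/CSW/W/IVE.lean is the scripted copy). Uses LNS, SMS. -/
def IVR_stmt : Prop := ∀ (f : SE) (k' : ℕ) (b' : ℂ) (A : ℝ), Rep f k' b' →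
  0 < A → ∃ t₁ > (0 : ℝ), ∀ (K k : ℕ) (p : ℂ) (t : ℝ), Rep f k p → p ≠ b' → 0 < K → it f K p = p →
    0 < t → t < t₁ → (∀ x : ℂ, ‖x‖ < t → ‖it f K (p + x) - p‖ ≤ 4 * t) → A * t ≤ ‖p - b'‖

/-- POS (short/medium): POSITION of the periodic points whose derivatives are bounded below. Uses `CSS.TTE_stmt`, `CSS.IFC_stmt`.
PROOF. `C ≥ 1` w.l.o.g. (`c = 1/C`), `A = 4 C`, `R` from TTE. Suppose `‖w‖ > R`, `w_j = f^j w`, `w_k = w`. `deriv (it f (k - j)) w_j * deriv (it f j) w = mlt f k w`, so `‖deriv (it f (k-j)) w_j‖ ≤ 2 C`. Claim: `‖w_j‖ > R` for `j ≤ k` by downward induction (`j = k`: `w_k = w`): if `‖w_i‖ > R` for `j < i ≤ k` then TTE at `z = w_j`, `m = k - j`: `A^(k-j) ‖w‖ ≤ ‖w_j‖ 2C`, so `‖w_j‖ ≥ 2 ‖w‖ > R` for `j < k`.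
`j = 0`: `A^k ‖w‖ ≤ ‖w‖ 2` : contradiction (`k ≥ 1`, `A ≥ 4`, `‖w‖ > R ≥ 1`). -/
def POS_stmt : Prop := ∀ (f : SE) (c : ℝ), 0 < c → ∃ R : ℝ, ∀ (k : ℕ) (w : ℂ), 1 ≤ k → it f k w = w → ‖mlt f k w‖ ≤ 2 → (∀ j ≤ k, c ≤ ‖deriv (it f j) w‖) → ‖w‖ ≤ R

/-- IVS (medium): long cycles at points with derivatives bounded below: the scale is small and the auxiliary points are invisible. Uses POS, SMS, IVR.
PROOF. `Rep f 1 p_l`. `R₀` from POS for `c = ε`: `‖b i‖ ≤ R₀` (`mlt f k (b i) = rho f b`, as `it f k (b i) = b i`, chain rule). Let `t₁` be the minimum of `ε'` and the two numbers of IVR for `p_l`, `A = 2/ε`. SMS (second part) with `s = t₁/2`, `a = R₀`, `M = 4 t₁ + 1`: `K₀`. `k₀ = max K₀ 2`. If `R ≥ t₁/2`: then for `‖x‖ < t₁/2`: `‖it f k (b i + x) - b i‖ ≤ 4 ‖x‖ ≤ 4 t₁`: SMS: `M ≤ 4 t₁`: contradiction. So `R < t₁/2 < t₁`.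
IVR with `K = k`, `p = b i`, `t = R` (`‖x‖ < R`: `‖it f k (b i + x) - b i‖ ≤ 4 ‖x‖ ≤ 4 R`; `b i ≠ p_l`): `(2/ε) R ≤ ‖b i - p_l‖`. `Rep f k (b i)`: minimal period `k` (`b` injective), `‖ρ‖ > 1`. -/
def IVS_stmt : Prop := ∀ (f : SE) (X : NP f) (ε ε' : ℝ), 0 < ε → 0 < ε' → ∃ k₀ : ℕ, ∀ (k : ℕ) [NeZero k] (b : ZMod k → ℂ), k₀ ≤ k → IsCyc f b → 1 < ‖rho f b‖ → ‖rho f b‖ ≤ 2 → (∀ i, b i ≠ X.p₁) → (∀ i, b i ≠ X.p₂) →
  ∀ (i : ZMod k) (R : ℝ), 0 < R → (∀ j ≤ k, ε ≤ ‖deriv (it f j) (b i)‖) → (∀ x ∈ ball (0 : ℂ) R, ‖it f k (b i + x) - b i - x‖ ≤ 3 * ‖x‖) →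
    R ≤ ε' ∧ 2 * R / ε ≤ ‖b i - X.p₁‖ ∧ 2 * R / ε ≤ ‖b i - X.p₂‖

/-- FNS (medium): finitely many points of a given period with small multiplier. Uses `CSS.TTE_stmt`, `YPPS.NIJ_stmt`, `CSS.IFC_stmt`.
PROOF. (1) BOUNDED. TTE with `A = 3`: `R ≥ 1`. If all points `z_1, .., z_k = z` of the orbit have norm `> R` then `3^k ‖z‖ ≤ ‖z‖ ‖mlt f k z‖ ≤ 2 ‖z‖`: contradiction. So some `z_j ∈ closedBall 0 R`, `1 ≤ j ≤ k`, and `z = z_k = it f (k - j) z_j` is in the bounded set `⋃_(i ≤ k) it f i '' closedBall 0 R`. (2) DISCRETE: `it f k z - z` is entire and not identically zero (otherwise `f` is injective: NIJ), so it has finitely many zeros in a compact disc (see Pool/Agent/helper43/EW/FNE.lean). -/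
def FNS_stmt : Prop := ∀ (f : SE) (k : ℕ), 1 ≤ k → {z : ℂ | it f k z = z ∧ ‖mlt f k z‖ ≤ 2}.Finite

/-- SQS (medium): if the uniform statement fails there are long cycles with multiplier close to the unit circle. Uses ZCS, FNS. PROOF. As Pool/Agent/helper43/EW/SQE.lean.
Given `k₀, ε`. `Z` = the finite set of the `z ∉ E` with `it f k z = z`, `‖mlt f k z‖ ≤ 2` for some `1 ≤ k < k₀` (FNS). `δ` = minimum of `ε`, `1` and the numbers `‖mlt f (minimalPeriod z) z‖ - 1 > 0`, `z ∈ Z`. `¬ WG`: `w ∉ E, m` with `it f m w = w`, `‖mlt f m w‖ < 1 + δ`. `k` = minimal period of `w`, `m = k l`, `mlt f m w = (mlt f k w)^l`, `1 < ‖mlt f k w‖ ≤ ‖mlt f k w‖^l < 1 + δ ≤ 2`. If `k < k₀` then `w ∈ Z`: contradiction.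
ZCS: `b`; `b i ∉ E` (`AE.inv`: if `b i ∈ E` the whole cycle is in `E`). -/
def SQS_stmt : Prop := ∀ (f : SE) (E : Set ℂ), AE f E → (∀ (z : ℂ) (m : ℕ), 1 ≤ m → it f m z = z → z ∉ E → 1 < ‖mlt f m z‖) → ¬ WG f E →
  ∀ (k₀ : ℕ) (ε : ℝ), 0 < ε → ∃ (k : ℕ) (_ : NeZero k) (b : ZMod k → ℂ), k₀ ≤ k ∧ IsCyc f b ∧ (∀ i, b i ∉ E) ∧ 1 < ‖rho f b‖ ∧ ‖rho f b‖ < 1 + ε

/-- WFG (medium): THE GENERAL THEOREM. Uses NRC, SQS, ECE, ERC, INE, ENS, SBS, IVS.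
PROOF. `p_l ∉ E` as in NRC. `C` from SBS; `C' = 2π + 6π C`; `ε₁` from `YXP.XM_stmt` for `n = f.natDegree`, `C'`. `η = min_l (1 - 1/‖fd f p_l‖) > 0`. Suppose `¬ WG f E`. IVS for `ε = ε₁`, `ε' = 1`: `k₀`. SQS with `max k₀ 2` and `ε₂` so small that `ε₂ ≤ ε₁`, `ε₂ ≤ 1`, `4π C ε₂/η ≤ 1`: a cycle `b`, `L = log ‖ρ‖ ≤ ε₂`, `k ≥ 2` (so `b i ≠ p_l`: `b` is injective, `p_l` a fixed point). `ρ ≠ 1`; ECE, ERC: `g, c₁, c₂, c`.
INE: `‖∫ μ_i RS c‖ ≤ 2π L`; SBS: `∫ ‖RS c‖ ≤ 2π C L`, `‖c p_l‖ ≤ 2π C L`, `‖c_l‖ ≤ 2π C L/η ≤ 1/2` (`RC.h1, h2`, `‖1/fd f p_l - 1‖ ≥ η`). ENS: `Eng` with `E₀ = C' L`. XM with `P = {p₁, p₂}`, `r = rr X c₁ c₂ = ∑_(p ∈ {p₁,p₂}) c̃ p/(z - p)`. Invisibility: for `i, R` as in XM: IVS: `R ≤ 1`, `‖b i - p_l‖ ≥ 2R/ε₁`; for `z ∈ ball (b i) (R/ε₁)`: `‖z - p_l‖ ≥ R/ε₁`, so `z ≠ p_l` and `R² ‖r z‖ ≤ R² (‖c₁‖ + ‖c₂‖) ε₁/R ≤ ε₁`.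
`mlt`/`deriv` of `(fun z => f.eval z)^[j]` is `deriv (it f j)` by `rfl`. Contradiction. -/
def WFG_stmt : Prop := YXP.XM_stmt → ∀ (f : SE) (X : NP f) (E : Set ℂ) (n : ℕ) (μ w : Fin n → ℂ → ℂ), SPN f X E n μ w → AE f E → WG f E

/-! ## Part 5: line fields: the pure case -/

/-- bounded invariant form supported in the Julia set. -/
structure IF (f : SE) (μ : ℂ → ℂ) : Prop where
  meas : Measurable μ
  bd : ∀ z, ‖μ z‖ ≤ 1
  supp : ∀ z, μ z ≠ 0 → z ∈ JJ f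
  inv : ∀ᵐ z : ℂ, μ (f.eval z) * (starRingEnd ℂ) (fd f z) / fd f z = μ z

/-- the kernel with poles `a, p₁, p₂`. -/
def KX {f : SE} (X : NP f) (a z : ℂ) : ℂ := 1 / (z - a) - (a - X.p₂) / (X.p₁ - X.p₂) / (z - X.p₁) - (a - X.p₁) / (X.p₂ - X.p₁) / (z - X.p₂)

/-- the vector field of `μ`, normalised at `p₁, p₂`. -/
def VX {f : SE} (X : NP f) (μ : ℂ → ℂ) (a : ℂ) : ℂ := ∫ z : ℂ, μ z * KX X a z

/-- ATS (short): attracting cycles are in the Fatou set. PROOF. Copy of Pool/Agent/helper16/EW/ATF.lean (`F = it f m`, `F z = z`, `‖F' z‖ < 1`). Second claim: a form in `IF` is a form `FM` with `w = 0` for every `E` (`IF.supp`, `JJ f = (fatouSet ..)ᶜ`). -/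
def ATS_stmt : Prop := (∀ (f : SE) (z : ℂ) (m : ℕ), 1 ≤ m → it f m z = z → ‖mlt f m z‖ < 1 → ∃ r > (0 : ℝ), ball z r ⊆ fatouSet (fun w : ℂ => f.eval w)) ∧
  ∀ (f : SE) (μ : ℂ → ℂ), IF f μ → ∀ E : Set ℂ, FM f E μ (fun _ => 0)

/-- KXP (short/medium): the kernel. Uses `EXQ.KER_stmt`, `EXQ.VCN_stmt`.
PROOF. `KX X a = q a - l₁ q p₁ - l₂ q p₂` off a finite set (`q = EXQ.q`, `l₁ = (a - p₂)/(p₁ - p₂)`, `l₂ = (a - p₁)/(p₂ - p₁)`, `l₁ + l₂ = 1`, `l₁ p₁ + l₂ p₂ = a`; `q p z = 1/(z - p) + (p-1)/z - p/(z-1)`). So `VX X μ a = V μ a - l₁ V μ p₁ - l₂ V μ p₂ = V μ a + P₁ a + P₀` with constants `P₀, P₁`; growth and continuity from VCN. `KX X p_l = 0` off a finite set.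
(3): `MZ`: `c p₁, c p₂` are determined by the `c v`, `v ∈ SV f`. -/
def KXP_stmt : Prop := ∀ (f : SE) (X : NP f), (∀ a, Integrable (KX X a)) ∧
  (∃ C : ℝ, ∀ μ : ℂ → ℂ, Measurable μ → (∀ z, ‖μ z‖ ≤ 1) → Continuous (VX X μ) ∧ (∀ a, ‖VX X μ a‖ ≤ C * EXQ.gr a) ∧ VX X μ X.p₁ = 0 ∧ VX X μ X.p₂ = 0 ∧ ∃ P₀ P₁ : ℂ, ∀ a, VX X μ a = EXQ.V μ a + P₁ * a + P₀) ∧
  (∀ c : ℂ → ℂ, MZ (ES f X) c → ∀ᵐ z : ℂ, RS (ES f X) c z = ∑ v ∈ SV f, c v * KX X v z) ∧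
  ∀ d : ℂ → ℂ, ∃ c : ℂ → ℂ, MZ (ES f X) c ∧ ∀ v ∈ SV f, c v = d v

/-- VFS (medium): THE VECTOR FIELD IDENTITY. Uses KXP, GDU, `CSS.TRE_stmt`, `CSS.TIN_stmt`, `CSS.TRM_stmt`, `BR.CPF_stmt`.
PROOF. TRE with the three poles `a, p₁, p₂` (residues `1, -l₁, -l₂`, see KXP): a.e. `TT f (KX X a) = (1/fd f a)/(z - f a) - l₁/fd f p₁/(z - p₁) - l₂/fd f p₂/(z - p₂) + ∑_v σ_v/(z - v)`; it is integrable (TIN), so by TRM both moments vanish, and a sum `∑ c_e/(z - e)` with two vanishing moments is `∑ c_e KX X e z` a.e. (`KX X p_l = 0`): `TT f (KX X a) = (1/fd f a) KX X (f a) + ∑_v σ_v KX X v` a.e.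
(If `fd f a = 0` the first term is `0`.) GDU with `B = KX X a`: `∫ μ TT f (KX X a) = VX X μ a + (1/π) ∫ ∂̄w KX X a`, and CPF: `∫ ∂̄w(z)/(z - a) = -π w a`, `w p_l = 0` (`p_l ∉ tsupport w`: fixed points, `p_l ∉ E`): `= VX X μ a - w a`. -/
def VFS_stmt : Prop := ∀ (f : SE) (X : NP f) (a : ℂ), ∃ σ : ℂ → ℂ, ∀ (E : Set ℂ) (μ w : ℂ → ℂ), FM f E μ w → X.p₁ ∉ E → X.p₂ ∉ E →
  VX X μ a - w a = 1 / fd f a * VX X μ (f.eval a) + ∑ v ∈ SV f, σ v * VX X μ v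

/-- EQS (medium): an invariant vector field vanishes on the Julia set. PROOF. Copy of Pool/Agent/helper22/EXQ/EQJ.lean with `fd f z` instead of `exp z` (`v (f^k z) = (f^k)'(z) v z`). -/
def EQS_stmt : Prop := ∀ (f : SE) (v : ℂ → ℂ) (C : ℝ), Continuous v → (∀ a, ‖v a‖ ≤ C * EXQ.gr a) →
  (∀ z, v (f.eval z) = fd f z * v z) → ∀ z ∈ JJ f, v z = 0

/-- NUS (short): uses VFS, EQS, KXP, ATS, `EXQ.DEN_stmt`.
PROOF. `FM f ∅ μ 0` (ATS). VFS with `VX X μ v = 0` on `SV f`: `VX X μ (f a) = fd f a * VX X μ a` (if `fd f a = 0` then `f a ∈ SV f`: both sides are `0`). EQS: `VX X μ = 0` on `J`; KXP: `= V μ a + P₁ a + P₀`; DEN with `J = JJ f` (closed: `CSS.JIV_stmt` or directly, complement of an interior). -/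
def NUS_stmt : Prop := ∀ (f : SE) (X : NP f) (μ : ℂ → ℂ), IF f μ → (∀ v ∈ SV f, VX X μ v = 0) → ∀ᵐ z : ℂ, μ z = 0

/-- LIS (medium): linear algebra. Uses NUS, KXP, ATS.
PROOF. `M i v = VX X (μ i) v = ∫ μ_i KX X v`. The rows `(M i v)_(v ∈ SV f)`, `i : Fin n`, are linearly independent: if `∑ a_i M i v = 0` for all `v` then `μ = (∑ a_i μ_i)/s`, `s = 1 + ∑ ‖a_i‖`, is in `IF` and `VX X μ v = 0`: NUS: `μ = 0` a.e., so `a = 0`. `n ≥ card (SV f)` rows of length `card (SV f)`: the rank is `card (SV f)` (`rank ≤` number of columns, so `n = card`), so `M c = 0` implies `c = 0` on `SV f`.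
For `c` with `MZ`: `∫ μ_i RS c = ∑_v c v M i v` (KXP (3)). So `c = 0` on `SV f`, and by the moments `c p₁ = c p₂ = 0`. -/
def LIS_stmt : Prop := ∀ (f : SE) (X : NP f) (n : ℕ) (μ : Fin n → ℂ → ℂ), (∀ i, IF f (μ i)) → (SV f).card ≤ n → (∀ a : Fin n → ℂ, (∀ᵐ z : ℂ, ∑ i, a i * μ i z = 0) → a = 0) →
  SPN f X ∅ n μ (fun _ _ => 0)

/-- WFS (very short): THEOREM W FOR CLASS S, pure case. Uses WFG, LIS, NPE. PROOF. `E = ∅`. -/
def WFS_stmt : Prop := YXP.XM_stmt → ∀ (f : SE) (n : ℕ) (μ : Fin n → ℂ → ℂ), (∀ i, IF f (μ i)) → (SV f).card ≤ n → (∀ a : Fin n → ℂ, (∀ᵐ z : ℂ, ∑ i, a i * μ i z = 0) → a = 0) → WW f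

end YW
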